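import Pool.Agent.H97.NF.Loc
import Pool.Agent.H97.L.T3997aac3.Q193.RD.Pieces
set_option autoImplicit false
set_option linter.unusedSectionVars false

/-! Large local values of a nonlinear functional. -/

namespace Pool.Agent.H97.NF

open MeasureTheory Set Metric Filter Topology
open scoped ENNReal NNReal RealInnerProductSpace ContDiff FourierTransform ComplexConjugate
open Pool.Agent.Q97.RS (ch Fh ch_norm ch_add ch_conj ch_swap ch_sub_right ch_cont ch_cont' ch_cont'')
open Pool.Agent.Q193.RD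

variable {V : Type*} [NormedAddCommGroup V] [InnerProductSpace ℝ V] [FiniteDimensional ℝ V]
  [MeasurableSpace V] [BorelSpace V]

/-- the indicator function -/
noncomputable def ind (A : Set V) (x : V) : ℂ := A.indicator (fun _ => (1 : ℂ)) x

lemma ind_bd {A : Set V} (hA : MeasurableSet A) : Bd (ind A) := by
  refine ⟨measurable_const.indicator hA, 1, fun x => ?_⟩
  unfold ind
  by_cases hx : x ∈ A
  · rw [indicator_of_mem hx]; simp
  · rw [indicator_of_notMem hx]; simp

/-- binary digits -/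
lemma digits (μ : Measure V) [IsFiniteMeasure μ] {q : ℝ≥0∞} (hq : 1 ≤ q) (R : ℝ) {B : Set V}
    {T : ℝ≥0∞} (hT : ∀ A ⊆ B, MeasurableSet A → nR μ q R (ind A) ≤ T) (m : ℕ) :
    ∀ f : V → ℝ, Measurable f → (∀ x, 0 ≤ f x ∧ f x ≤ 1) → (∀ x, x ∉ B → f x = 0) →
      nR μ q R (fun x => (f x : ℂ)) ≤ T + (volume (ball (0 : V) R) ^ q.toReal⁻¹ * μ univ) *
        (1 / 2) ^ m := by
  induction m with
  | zero =>
    intro f hf h01 _
    refine (nR_le μ q R _).trans ?_
    rw [pow_zero, mul_one]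
    refine le_trans ?_ le_add_self
    refine mul_le_mul_right ?_ _
    calc ENNReal.ofReal (∫ x, ‖((f x : ℝ) : ℂ)‖ ∂μ) ≤ ENNReal.ofReal (∫ _, (1 : ℝ) ∂μ) := by
          refine ENNReal.ofReal_le_ofReal (integral_mono_of_nonneg
            (Eventually.of_forall fun _ => norm_nonneg _) (integrable_const _)
            (Eventually.of_forall fun x => ?_))
          simp only
          rw [Complex.norm_real, Real.norm_eq_abs, abs_of_nonneg (h01 x).1]
          exact (h01 x).2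
      _ = μ univ := by simp [ENNReal.ofReal_toReal, measure_ne_top, Measure.real]
  | succ m ih =>
    intro f hf h01 hB
    classical
    set A : Set V := {x | 1 / 2 ≤ f x} with hA
    have hAm : MeasurableSet A := measurableSet_le measurable_const hf
    have hAB : A ⊆ B := by
      intro x hx
      by_contra hcon
      have h1 : (1 : ℝ) / 2 ≤ f x := hx
      rw [hB x hcon] at h1
      norm_num at h1
    set f' : V → ℝ := fun x => 2 * f x - A.indicator (fun _ => (1 : ℝ)) x with hf'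
    have hf'm : Measurable f' := (hf.const_mul 2).sub (measurable_const.indicator hAm)
    have h1 := ih f' hf'm (fun x => by
      obtain ⟨h3, h4⟩ := h01 x
      simp only [hf']
      by_cases hx : x ∈ A
      · rw [indicator_of_mem hx]
        have h5 : (1 : ℝ) / 2 ≤ f x := hx
        constructor <;> linarith
      · rw [indicator_of_notMem hx]
        have h5 : f x < 1 / 2 := not_le.1 hx
        constructor <;> linarith) (fun x hx => by
      simp only [hf']
      rw [hB x hx, indicator_of_notMem (fun h => hx (hAB h))]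
      ring)
    have h2 : (fun x => ((f x : ℝ) : ℂ)) = (1 / 2 : ℂ) • (ind A) +
        (1 / 2 : ℂ) • (fun x => ((f' x : ℝ) : ℂ)) := by
      funext x
      simp only [Pi.add_apply, Pi.smul_apply, smul_eq_mul, hf', ind]
      by_cases hx : x ∈ A
      · rw [indicator_of_mem hx, indicator_of_mem hx]
        push_cast
        ring
      · rw [indicator_of_notMem hx, indicator_of_notMem hx]
        push_cast
        ring
    have hb' : Bd (fun x => ((f' x : ℝ) : ℂ)) := by
      refine ⟨Complex.measurable_ofReal.comp hf'm, 3, fun x => ?_⟩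
      rw [Complex.norm_real, Real.norm_eq_abs]
      obtain ⟨h3, h4⟩ := h01 x
      simp only [hf']
      by_cases hx : x ∈ A
      · rw [indicator_of_mem hx, abs_le]
        constructor <;> linarith
      · rw [indicator_of_notMem hx, abs_le]
        constructor <;> linarith
    rw [h2]
    refine (nR_add μ hq R ((ind_bd hAm).smul _) (hb'.smul _)).trans ?_
    rw [nR_smul, nR_smul]
    have e1 : ‖(1 / 2 : ℂ)‖ₑ = 1 / 2 := by
      rw [← ofReal_norm]
      have : ‖(1 / 2 : ℂ)‖ = 1 / 2 := by norm_num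
      rw [this, ENNReal.ofReal_div_of_pos (by norm_num)]
      simp
    rw [e1]
    have h3 := hT A hAB hAm
    set c := volume (ball (0 : V) R) ^ q.toReal⁻¹ * μ univ with hc
    calc 1 / 2 * nR μ q R (ind A) + 1 / 2 * nR μ q R (fun x => ((f' x : ℝ) : ℂ))
        ≤ 1 / 2 * T + 1 / 2 * (T + c * (1 / 2) ^ m) := by gcongr
      _ = (1 / 2 + 1 / 2) * T + c * ((1 / 2) ^ m * (1 / 2)) := by ring
      _ = T + c * (1 / 2) ^ (m + 1) := by
          rw [ENNReal.add_halves, one_mul, pow_succ]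

/-- characteristic functions are almost extremal -/
lemma digits' (μ : Measure V) [IsFiniteMeasure μ] {q : ℝ≥0∞} (hq : 1 ≤ q) (R : ℝ) {B : Set V}
    {T : ℝ≥0∞} (hT : ∀ A ⊆ B, MeasurableSet A → nR μ q R (ind A) ≤ T)
    (f : V → ℝ) (hf : Measurable f) (h01 : ∀ x, 0 ≤ f x ∧ f x ≤ 1) (hB : ∀ x, x ∉ B → f x = 0) :
    nR μ q R (fun x => (f x : ℂ)) ≤ T := by
  set c := volume (ball (0 : V) R) ^ q.toReal⁻¹ * μ univ with hc
  have hct : c ≠ ⊤ := ENNReal.mul_ne_top
    (ENNReal.rpow_ne_top_of_nonneg (inv_nonneg.2 ENNReal.toReal_nonneg) measure_ball_lt_top.ne)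
    (measure_ne_top _ _)
  have h1 : Tendsto (fun m : ℕ => T + c * (1 / 2) ^ m) atTop (𝓝 (T + c * 0)) := by
    refine Tendsto.const_add T (ENNReal.Tendsto.const_mul ?_ (Or.inr hct))
    have := ENNReal.tendsto_pow_atTop_nhds_zero_of_lt_one (r := 1 / 2) (by
      rw [one_div]
      exact ENNReal.inv_lt_one.2 (by norm_num))
    exact this
  rw [mul_zero, add_zero] at h1
  exact ge_of_tendsto h1 (Eventually.of_forall fun m => digits μ hq R hT m f hf h01 hB)

/-- if the conjecture fails at `q`, it fails badly for sets in any cap -/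
lemma big_sets (μ : Measure V) [IsFiniteMeasure μ] (hsph : ∀ᵐ x ∂μ, ‖x‖ = 1)
    (hinv : ∀ L : V ≃ₗᵢ[ℝ] V, MeasurePreserving L μ μ) {q : ℝ≥0∞} (hq : 1 ≤ q)
    (hfail : ∃ g : V → ℂ, Bd g ∧ eLpNorm (Fh μ g) q volume = ⊤) (y : V) (hy : ‖y‖ = 1) {ρ : ℝ}
    (hρ : 0 < ρ) {T : ℝ≥0∞} (hT : T ≠ ⊤) :
    ∃ (R : ℝ) (A : Set V), A ⊆ ball y ρ ∧ MeasurableSet A ∧ T < nR μ q R (ind A) := by
  by_contra hcon
  push Not at hcon
  obtain ⟨N, hN, hext⟩ := extremal μ hsph hinv y hy hρ
  have h1 : ∀ R : ℝ, ∀ g : V → ℂ, Measurable g → (∀ x, ‖g x‖ ≤ 1) →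
      nR μ q R g ≤ ENNReal.ofReal N * (2 * T) := by
    intro R g hg hg1
    obtain ⟨φ, hφc, hφ01, hφs, hφ⟩ := hext q hq R
    refine (hφ g hg hg1).trans (mul_le_mul_right ?_ _)
    have h2 := digits' μ hq R (B := ball y ρ) (T := T) (fun A hA hAm => hcon R A hA hAm)
      (fun x => φ x / 2) (hφc.continuous.measurable.div_const 2) (fun x => by
        obtain ⟨h3, h4⟩ := hφ01 x
        constructor <;> linarith) (fun x hx => by rw [hφs x hx, zero_div])
    have h3 : (fun x => ((φ x : ℝ) : ℂ)) = (2 : ℂ) • (fun x => ((φ x / 2 : ℝ) : ℂ)) := by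
      funext x
      simp only [Pi.smul_apply, smul_eq_mul]
      push_cast
      ring
    rw [h3, nR_smul]
    have e1 : ‖(2 : ℂ)‖ₑ = 2 := by
      rw [← ofReal_norm]
      simp
    rw [e1]
    gcongr
  obtain ⟨g, hgb, hg⟩ := hfail
  obtain ⟨M, hM⟩ := hgb.2
  set M' : ℝ := |M| + 1 with hM'
  have hM'0 : 0 < M' := by positivity
  set g' : V → ℂ := (((M'⁻¹ : ℝ)) : ℂ) • g with hg'
  have hg'1 : ∀ x, ‖g' x‖ ≤ 1 := by
    intro x
    rw [hg', Pi.smul_apply, norm_smul, Complex.norm_real, Real.norm_eq_abs,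
      abs_of_nonneg (by positivity), inv_mul_le_iff₀ hM'0, mul_one]
    exact (hM x).trans ((le_abs_self M).trans (by linarith))
  have hg'b : Bd g' := hgb.smul _
  have h4 := exhaust (Fh_sm μ hg'b) q (ENNReal.ofReal N * (2 * T))
    (fun n => h1 n g' hg'b.1 hg'1)
  have h5 : eLpNorm (Fh μ g') q volume = ‖((M'⁻¹ : ℝ) : ℂ)‖ₑ * eLpNorm (Fh μ g) q volume := by
    rw [hg', Fh_smul, eLpNorm_const_smul]
  rw [h5, hg, ENNReal.mul_top] at h4
  · have h6 : ENNReal.ofReal N * (2 * T) ≠ ⊤ :=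
      ENNReal.mul_ne_top ENNReal.ofReal_ne_top (ENNReal.mul_ne_top (by norm_num) hT)
    exact h6 (top_le_iff.1 h4)
  · rw [← ofReal_norm, Complex.norm_real, Real.norm_eq_abs, abs_of_nonneg (by positivity)]
    simp [hM'0]

/-- modulus of continuity, linearized -/
lemma mod_lin {f : ℝ → ℂ} (hf : Continuous f) (a b : ℝ) {η : ℝ} (hη0 : 0 < η) :
    ∃ κ : ℝ, 0 ≤ κ ∧ ∀ s ∈ Icc a b, ∀ t ∈ Icc a b, ‖f s - f t‖ ≤ η + κ * |s - t| := by
  have hK : IsCompact (Icc a b) := isCompact_Icc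
  obtain ⟨B0, hB0⟩ := hK.exists_bound_of_continuousOn hf.continuousOn
  set B : ℝ := |B0| with hBd
  have hBnn : 0 ≤ B := abs_nonneg _
  have hB : ∀ x ∈ Icc a b, ‖f x‖ ≤ B := fun x hx => (hB0 x hx).trans (le_abs_self _)
  have huc := hK.uniformContinuousOn_of_continuous hf.continuousOn
  rw [Metric.uniformContinuousOn_iff] at huc
  obtain ⟨d, hd, hd1⟩ := huc η hη0
  refine ⟨2 * B / d, by positivity, fun s hs t ht => ?_⟩
  rcases lt_or_ge |s - t| d with h1 | h1
  · have h2 := hd1 s hs t ht (by rw [Real.dist_eq]; exact h1)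
    rw [dist_eq_norm] at h2
    have : 0 ≤ 2 * B / d * |s - t| := by positivity
    linarith
  · have h2 : ‖f s - f t‖ ≤ 2 * B := by
      refine (norm_sub_le _ _).trans ?_
      linarith [hB s hs, hB t ht]
    have h3 : 2 * B ≤ 2 * B / d * |s - t| := by
      rw [div_mul_eq_mul_div, le_div_iff₀ hd]
      exact mul_le_mul_of_nonneg_left h1 (by positivity)
    linarith

/-- smooth approximation of the functional on a characteristic function -/
lemma smooth_M (μ : Measure V) [IsFiniteMeasure μ] {M : ℝ → ℂ} (hM : Continuous M) (y : V) {ρ : ℝ}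
    (hρ : 0 < ρ) {A : Set V} (hAB : A ⊆ ball y (ρ / 2)) (hA : MeasurableSet A) {ε : ℝ}
    (hε : 0 < ε) : ∃ t : V → ℝ, ContDiff ℝ ∞ t ∧ (∀ x, 0 ≤ t x ∧ t x ≤ 2) ∧
      (∀ x, x ∉ ball y ρ → t x = 0) ∧
      ∫ x, ‖M (A.indicator (fun _ => (1 : ℝ)) x) - M (t x)‖ ∂μ ≤ ε := by
  have hK : IsCompact (Icc (0 : ℝ) 2) := isCompact_Icc
  obtain ⟨B, hB⟩ := hK.exists_bound_of_continuousOn hM.continuousOn
  have hB0 : 0 ≤ B := (norm_nonneg _).trans (hB 0 ⟨le_rfl, by norm_num⟩)
  set m : ℝ := μ.real univ with hm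
  have hm0 : 0 ≤ m := measureReal_nonneg
  set η : ℝ := ε / (2 * (m + 1)) with hη
  have hη0 : 0 < η := by positivity
  have huc := hK.uniformContinuousOn_of_continuous hM.continuousOn
  rw [Metric.uniformContinuousOn_iff] at huc
  obtain ⟨d, hd, hd1⟩ := huc η hη0
  have hpt : ∀ a ∈ Icc (0 : ℝ) 2, ∀ b ∈ Icc (0 : ℝ) 2, ‖M a - M b‖ ≤ η + 2 * B / d * |a - b| := by
    intro a ha b hb
    rcases lt_or_ge |a - b| d with h1 | h1
    · have h2 := hd1 a ha b hb (by rw [Real.dist_eq]; exact h1)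
      rw [dist_eq_norm] at h2
      have : 0 ≤ 2 * B / d * |a - b| := by positivity
      linarith
    · have h2 : ‖M a - M b‖ ≤ 2 * B := by
        refine (norm_sub_le _ _).trans ?_
        linarith [hB a ha, hB b hb]
      have h3 : 2 * B ≤ 2 * B / d * |a - b| := by
        rw [div_mul_eq_mul_div, le_div_iff₀ hd]
        exact mul_le_mul_of_nonneg_left h1 (by positivity)
      linarith
  set ε' : ℝ := ε * d / (4 * (B + 1)) with hε'
  have hε'0 : 0 < ε' := by positivity
  have h01 : ∀ x, 0 ≤ A.indicator (fun _ => (1 : ℝ)) x ∧ A.indicator (fun _ => (1 : ℝ)) x ≤ 1 := by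
    intro x
    by_cases hx : x ∈ A
    · rw [indicator_of_mem hx]; norm_num
    · rw [indicator_of_notMem hx]; norm_num
  obtain ⟨t, ht1, ht2, ht3, ht4⟩ := smooth_approx μ y hρ (g := A.indicator fun _ => (1 : ℝ))
    (measurable_const.indicator hA) h01
    (fun x hx => indicator_of_notMem (fun h => hx (hAB h)) _) hε'0
  refine ⟨t, ht1, ht2, ht3, ?_⟩
  have hti : Integrable (fun x => |A.indicator (fun _ => (1 : ℝ)) x - t x|) μ := by
    refine Integrable.of_bound (C := 2)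
      (((measurable_const.indicator hA).sub ht1.continuous.measurable).abs).aestronglyMeasurable
      (Eventually.of_forall fun x => ?_)
    rw [Real.norm_eq_abs, abs_abs, abs_le]
    obtain ⟨h3, h4⟩ := h01 x
    obtain ⟨h5, h6⟩ := ht2 x
    constructor <;> linarith
  calc ∫ x, ‖M (A.indicator (fun _ => (1 : ℝ)) x) - M (t x)‖ ∂μ
      ≤ ∫ x, (η + 2 * B / d * |A.indicator (fun _ => (1 : ℝ)) x - t x|) ∂μ := by
        refine integral_mono_of_nonneg (Eventually.of_forall fun _ => norm_nonneg _)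
          ((integrable_const _).add (hti.const_mul _)) (Eventually.of_forall fun x => ?_)
        obtain ⟨h3, h4⟩ := h01 x
        exact hpt _ ⟨h3, by linarith⟩ _ ⟨(ht2 x).1, (ht2 x).2⟩
    _ = η * m + 2 * B / d * ∫ x, |A.indicator (fun _ => (1 : ℝ)) x - t x| ∂μ := by
        rw [integral_add (integrable_const _) (hti.const_mul _), integral_const, integral_const_mul,
          smul_eq_mul, mul_comm m]
    _ ≤ η * m + 2 * B / d * ε' := by gcongr
    _ ≤ ε / 2 + ε / 2 := by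
        refine add_le_add ?_ ?_
        · calc η * m ≤ η * (m + 1) := by nlinarith
            _ = ε / 2 := by rw [hη]; field_simp
        · calc 2 * B / d * ε' = (B / (B + 1)) * (ε / 2) := by
                rw [hε']
                field_simp
                ring
            _ ≤ 1 * (ε / 2) := by
                refine mul_le_mul_of_nonneg_right ?_ (by positivity)
                rw [div_le_one (by positivity)]
                linarith
            _ = ε / 2 := one_mul _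
    _ = ε := by ring

/-- Large local values, for rough signs. -/
theorem big0 (μ : Measure V) [IsFiniteMeasure μ] (hsph : ∀ᵐ x ∂μ, ‖x‖ = 1)
    (hinv : ∀ L : V ≃ₗᵢ[ℝ] V, MeasurePreserving L μ μ) {Y : ℕ → V → ℝ}
    (hYm : ∀ k, Measurable (Y k)) (hYv : ∀ k x, Y k x = 1 ∨ Y k x = -1)
    (hYs : ∀ δ : ℝ, 0 < δ → ∃ K : ℕ, ∀ k, K ≤ k → ∀ ξ, ‖Fh μ (fun x => (Y k x : ℂ)) ξ‖ ≤ δ)
    {f : ℝ → ℂ} (hf : Continuous f) {c u : ℝ} (hcu : f (c + u) + f (c - u) ≠ 2 * f c)
    {q : ℝ≥0∞} (hq : 1 ≤ q) (hfail : ∃ g : V → ℂ, Bd g ∧ eLpNorm (Fh μ g) q volume = ⊤)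
    (y : V) (hy : ‖y‖ = 1) {ρ : ℝ} (hρ : 0 < ρ) {T : ℝ≥0∞} (hT : T ≠ ⊤) :
    ∃ t : V → ℝ, ContDiff ℝ ∞ t ∧ (∀ x, 0 ≤ t x ∧ t x ≤ 2) ∧ (∀ x, x ∉ ball y ρ → t x = 0) ∧
      ∃ (R : ℝ) (K : ℕ), ∀ k, K ≤ k →
        T ≤ nR μ q R (fun x => f (c + u * (t x * Y k x)) - f c) := by
  set M : ℝ → ℂ := fun s => (1 / 2 : ℂ) * (f (c + u * s) + f (c - u * s)) - f c with hM
  set A' : ℝ → ℂ := fun s => (1 / 2 : ℂ) * (f (c + u * s) - f (c - u * s)) with hA'
  have hMc : Continuous M := by fun_prop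
  have hAc : Continuous A' := by fun_prop
  have hM0 : M 0 = 0 := by
    simp only [hM, mul_zero, add_zero, sub_zero]
    ring
  have hκ : M 1 ≠ 0 := by
    simp only [hM, mul_one]
    intro h0
    apply hcu
    linear_combination 2 * h0
  have hκe : ‖M 1‖ₑ ≠ 0 := enorm_ne_zero.2 hκ
  have hT' : (T + 1 + 1) / ‖M 1‖ₑ ≠ ⊤ := by
    refine (ENNReal.div_lt_top ?_ hκe).ne
    simp [hT]
  obtain ⟨R, A, hAB, hA, hbig⟩ := big_sets μ hsph hinv hq hfail y hy (half_pos hρ) hT'
  set cR : ℝ≥0∞ := volume (ball (0 : V) R) ^ q.toReal⁻¹ with hcR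
  have hcRt : cR ≠ ⊤ :=
    ENNReal.rpow_ne_top_of_nonneg (inv_nonneg.2 ENNReal.toReal_nonneg) measure_ball_lt_top.ne
  obtain ⟨η, hη, hη1⟩ : ∃ η : ℝ, 0 < η ∧ cR * ENNReal.ofReal η ≤ 1 := by
    refine ⟨1 / (cR.toReal + 1), by positivity, ?_⟩
    have h0 : 0 ≤ cR.toReal := ENNReal.toReal_nonneg
    calc cR * ENNReal.ofReal (1 / (cR.toReal + 1)) =
        ENNReal.ofReal cR.toReal * ENNReal.ofReal (1 / (cR.toReal + 1)) := by
          rw [ENNReal.ofReal_toReal hcRt]
      _ = ENNReal.ofReal (cR.toReal * (1 / (cR.toReal + 1))) := by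
          rw [← ENNReal.ofReal_mul h0]
      _ ≤ ENNReal.ofReal 1 := by
          refine ENNReal.ofReal_le_ofReal ?_
          rw [mul_one_div, div_le_one (by positivity)]
          linarith
      _ = 1 := ENNReal.ofReal_one
  obtain ⟨t, ht1, ht2, ht3, ht4⟩ := smooth_M μ hMc y hρ hAB hA hη
  have htm : Measurable t := ht1.continuous.measurable
  -- bounded functions
  have hbd : ∀ {G : ℝ → ℂ}, Continuous G → ∀ {s : V → ℝ}, Measurable s →
      (∀ x, s x ∈ Icc (-2 : ℝ) 2) → Bd (fun x => G (s x)) := by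
    intro G hG s hs hs2
    obtain ⟨B, hB⟩ := (isCompact_Icc (a := (-2 : ℝ)) (b := 2)).exists_bound_of_continuousOn
      hG.continuousOn
    exact ⟨hG.measurable.comp hs, B, fun x => hB _ (hs2 x)⟩
  have ht2' : ∀ x, t x ∈ Icc (-2 : ℝ) 2 := fun x => ⟨by linarith [(ht2 x).1], (ht2 x).2⟩
  have hMt : Bd (fun x => M (t x)) := hbd hMc htm ht2'
  have hAt : Bd (fun x => A' (t x)) := hbd hAc htm ht2'
  have hind : Measurable (A.indicator (fun _ => (1 : ℝ))) := measurable_const.indicator hA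
  have hM1 : Bd (fun x => M (A.indicator (fun _ => (1 : ℝ)) x)) := by
    refine hbd hMc hind fun x => ?_
    by_cases hx : x ∈ A
    · rw [indicator_of_mem hx]; constructor <;> norm_num
    · rw [indicator_of_notMem hx]; constructor <;> norm_num
  have hYc : ∀ k, Measurable fun x => ((Y k x : ℝ) : ℂ) := fun k =>
    Complex.measurable_ofReal.comp (hYm k)
  have hY1 : ∀ k x, ‖((Y k x : ℝ) : ℂ)‖ ≤ 1 := by
    intro k x
    rcases hYv k x with h | h <;> rw [h] <;> simp
  obtain ⟨K, hK⟩ := weak_sup μ (hAt.integrable μ) hYc hY1 hYs hη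
  refine ⟨t, ht1, ht2, ht3, R, K, fun k hk => ?_⟩
  have hAY : Bd (fun x => A' (t x) * ((Y k x : ℝ) : ℂ)) := by
    obtain ⟨B, hB⟩ := hAt.2
    refine ⟨hAt.1.mul (hYc k), B, fun x => ?_⟩
    rw [norm_mul]
    exact (mul_le_of_le_one_right (norm_nonneg _) (hY1 k x)).trans (hB x)
  -- the decomposition
  have hdec : (fun x => f (c + u * (t x * Y k x)) - f c) =
      (fun x => M (t x)) + (fun x => A' (t x) * ((Y k x : ℝ) : ℂ)) := by
    funext x
    simp only [Pi.add_apply, hM, hA']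
    rcases hYv k x with h | h
    · rw [h]
      simp only [mul_one, Complex.ofReal_one]
      ring
    · rw [h]
      have e1 : c + u * (t x * -1) = c - u * t x := by ring
      rw [e1]
      push_cast
      ring
  have hH : Bd (fun x => f (c + u * (t x * Y k x)) - f c) := by
    rw [hdec]
    exact hMt.add hAY
  have h1 : nR μ q R (fun x => A' (t x) * ((Y k x : ℝ) : ℂ)) ≤ 1 := by
    unfold nR
    refine (eLpNorm_le_of_ae_bound (C := η) (Eventually.of_forall fun ξ => hK k hk ξ)).trans ?_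
    rw [Measure.restrict_apply_univ]
    exact hη1
  have h2 : nR μ q R ((fun x => M (A.indicator (fun _ => (1 : ℝ)) x)) - fun x => M (t x)) ≤ 1 := by
    refine (nR_le μ q R _).trans (le_trans ?_ hη1)
    refine mul_le_mul_right (ENNReal.ofReal_le_ofReal ?_) _
    exact ht4
  have h3 : nR μ q R (fun x => M (A.indicator (fun _ => (1 : ℝ)) x)) =
      ‖M 1‖ₑ * nR μ q R (ind A) := by
    rw [← nR_smul]
    congr 1
    funext x
    simp only [Pi.smul_apply, smul_eq_mul, ind]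
    by_cases hx : x ∈ A
    · rw [indicator_of_mem hx, indicator_of_mem hx, mul_one]
    · rw [indicator_of_notMem hx, indicator_of_notMem hx, mul_zero, hM0]
  have h4 : T + 1 + 1 ≤ nR μ q R (fun x => M (A.indicator (fun _ => (1 : ℝ)) x)) := by
    rw [h3]
    have h5 := hbig.le
    rw [ENNReal.div_le_iff hκe enorm_ne_top] at h5
    rwa [mul_comm]
  have h5 : nR μ q R (fun x => M (A.indicator (fun _ => (1 : ℝ)) x)) ≤
      nR μ q R (fun x => f (c + u * (t x * Y k x)) - f c) + 1 + 1 := by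
    have e1 : (fun x => M (A.indicator (fun _ => (1 : ℝ)) x)) =
        ((fun x => f (c + u * (t x * Y k x)) - f c) +
          -(fun x => A' (t x) * ((Y k x : ℝ) : ℂ))) +
        ((fun x => M (A.indicator (fun _ => (1 : ℝ)) x)) - fun x => M (t x)) := by
      rw [hdec]
      abel
    rw [e1]
    have hneg : Bd (-(fun x => A' (t x) * ((Y k x : ℝ) : ℂ))) := by
      have := hAY.smul (-1)
      rwa [neg_one_smul] at this
    refine (nR_add μ hq R (hH.add hneg) (hM1.sub hMt)).trans (add_le_add ?_ h2)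
    refine (nR_add μ hq R hH hneg).trans (add_le_add_right ?_ _)
    rw [nR_neg]
    exact h1
  have h6 : T ≤ nR μ q R (fun x => f (c + u * (t x * Y k x)) - f c) := by
    have h7 := h4.trans h5
    exact (ENNReal.add_le_add_iff_right ENNReal.one_ne_top).1
      ((ENNReal.add_le_add_iff_right ENNReal.one_ne_top).1 h7)
  exact h6

/-- **Large local values of a nonlinear functional of a small oscillating density.** -/
theorem big (μ : Measure V) [IsFiniteMeasure μ] (hsph : ∀ᵐ x ∂μ, ‖x‖ = 1)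
    (hinv : ∀ L : V ≃ₗᵢ[ℝ] V, MeasurePreserving L μ μ) {Y Z : ℕ → V → ℝ}
    (hYm : ∀ k, Measurable (Y k)) (hYv : ∀ k x, Y k x = 1 ∨ Y k x = -1)
    (hYs : ∀ δ : ℝ, 0 < δ → ∃ K : ℕ, ∀ k, K ≤ k → ∀ ξ, ‖Fh μ (fun x => (Y k x : ℂ)) ξ‖ ≤ δ)
    (hZm : ∀ k, Measurable (Z k)) (hZ3 : ∀ k x, |Z k x| ≤ 3)
    (hYZ : ∀ δ : ℝ, 0 < δ → ∃ K : ℕ, ∀ k, K ≤ k → ∫ x, |Y k x - Z k x| ∂μ ≤ δ)
    {f : ℝ → ℂ} (hf : Continuous f) {c u : ℝ} (hcu : f (c + u) + f (c - u) ≠ 2 * f c)
    {q : ℝ≥0∞} (hq : 1 ≤ q) (hfail : ∃ g : V → ℂ, Bd g ∧ eLpNorm (Fh μ g) q volume = ⊤)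
    (y : V) (hy : ‖y‖ = 1) {ρ : ℝ} (hρ : 0 < ρ) {T : ℝ≥0∞} (hT : T ≠ ⊤) :
    ∃ t : V → ℝ, ContDiff ℝ ∞ t ∧ (∀ x, 0 ≤ t x ∧ t x ≤ 2) ∧ (∀ x, x ∉ ball y ρ → t x = 0) ∧
      ∃ K : ℕ, ∀ k, K ≤ k →
        T ≤ eLpNorm (Fh μ (fun x => f (c + u * (t x * Z k x)) - f c)) q volume := by
  obtain ⟨t, ht1, ht2, ht3, R, K1, hK1⟩ := big0 μ hsph hinv hYm hYv hYs hf hcu hq hfail y hy hρ
    (T := T + 1) (by simp [hT])
  set cR : ℝ≥0∞ := volume (ball (0 : V) R) ^ q.toReal⁻¹ with hcR
  have hcRt : cR ≠ ⊤ :=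
    ENNReal.rpow_ne_top_of_nonneg (inv_nonneg.2 ENNReal.toReal_nonneg) measure_ball_lt_top.ne
  obtain ⟨η, hη, hη1⟩ : ∃ η : ℝ, 0 < η ∧ cR * ENNReal.ofReal η ≤ 1 := by
    refine ⟨1 / (cR.toReal + 1), by positivity, ?_⟩
    have h0 : 0 ≤ cR.toReal := ENNReal.toReal_nonneg
    calc cR * ENNReal.ofReal (1 / (cR.toReal + 1)) =
        ENNReal.ofReal cR.toReal * ENNReal.ofReal (1 / (cR.toReal + 1)) := by
          rw [ENNReal.ofReal_toReal hcRt]
      _ = ENNReal.ofReal (cR.toReal * (1 / (cR.toReal + 1))) := by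
          rw [← ENNReal.ofReal_mul h0]
      _ ≤ ENNReal.ofReal 1 := by
          refine ENNReal.ofReal_le_ofReal ?_
          rw [mul_one_div, div_le_one (by positivity)]
          linarith
      _ = 1 := ENNReal.ofReal_one
  have htm : Measurable t := ht1.continuous.measurable
  set m : ℝ := μ.real univ with hm
  have hm0 : 0 ≤ m := measureReal_nonneg
  set b : ℝ := |u| * 6 with hb
  obtain ⟨κ, hκ0, hκ⟩ := mod_lin hf (c - b) (c + b) (η := η / (2 * (m + 1))) (by positivity)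
  obtain ⟨K2, hK2⟩ := hYZ (η / (2 * (κ * (|u| * 2) + 1))) (by positivity)
  refine ⟨t, ht1, ht2, ht3, max K1 K2, fun k hk => ?_⟩
  have h1 := hK1 k ((le_max_left _ _).trans hk)
  have h2 := hK2 k ((le_max_right _ _).trans hk)
  have hin : ∀ (s z : ℝ), 0 ≤ s → s ≤ 2 → |z| ≤ 3 → c + u * (s * z) ∈ Icc (c - b) (c + b) := by
    intro s z hs0 hs2 hz
    have h3 : |u * (s * z)| ≤ b := by
      rw [abs_mul, abs_mul, hb, abs_of_nonneg hs0]
      refine mul_le_mul_of_nonneg_left ?_ (abs_nonneg _)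
      nlinarith [abs_nonneg z]
    rw [abs_le] at h3
    constructor <;> linarith
  have hY3 : ∀ x, |Y k x| ≤ 3 := by
    intro x
    rcases hYv k x with h | h <;> rw [h] <;> norm_num
  obtain ⟨B, hB⟩ := (isCompact_Icc (a := c - b) (b := c + b)
    ).exists_bound_of_continuousOn hf.continuousOn
  have hbd : ∀ X : V → ℝ, Measurable X → (∀ x, |X x| ≤ 3) →
      Bd (fun x => f (c + u * (t x * X x)) - f c) := by
    intro X hX hX3
    refine ⟨(hf.measurable.comp (((htm.mul hX).const_mul u).const_add c)).sub_const _, B + ‖f c‖,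
      fun x => ?_⟩
    exact (norm_sub_le _ _).trans (add_le_add (hB _ (hin _ _ (ht2 x).1 (ht2 x).2 (hX3 x))) le_rfl)
  have hHY := hbd (Y k) (hYm k) hY3
  have hHZ := hbd (Z k) (hZm k) (hZ3 k)
  set HY : V → ℂ := fun x => f (c + u * (t x * Y k x)) - f c with hHYd
  set HZ : V → ℂ := fun x => f (c + u * (t x * Z k x)) - f c with hHZd
  have hYZi : Integrable (fun x => |Y k x - Z k x|) μ := by
    refine Integrable.of_bound (C := 6) (((hYm k).sub (hZm k)).abs).aestronglyMeasurable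
      (Eventually.of_forall fun x => ?_)
    rw [Real.norm_eq_abs, abs_abs]
    refine (abs_sub _ _).trans ?_
    linarith [hY3 x, hZ3 k x]
  have h4 : ∫ x, ‖(HY - HZ) x‖ ∂μ ≤ η := by
    calc ∫ x, ‖(HY - HZ) x‖ ∂μ
        ≤ ∫ x, (η / (2 * (m + 1)) + κ * (|u| * 2) * |Y k x - Z k x|) ∂μ := by
          refine integral_mono_of_nonneg (Eventually.of_forall fun _ => norm_nonneg _)
            ((integrable_const _).add (hYZi.const_mul _)) (Eventually.of_forall fun x => ?_)
          simp only [Pi.sub_apply, hHYd, hHZd, sub_sub_sub_cancel_right]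
          refine (hκ _ (hin _ _ (ht2 x).1 (ht2 x).2 (hY3 x)) _
            (hin _ _ (ht2 x).1 (ht2 x).2 (hZ3 k x))).trans (add_le_add le_rfl ?_)
          have e1 : c + u * (t x * Y k x) - (c + u * (t x * Z k x)) =
            u * (t x * (Y k x - Z k x)) := by ring
          rw [e1, abs_mul, abs_mul, abs_of_nonneg (ht2 x).1, mul_assoc κ, mul_assoc (|u|)]
          refine mul_le_mul_of_nonneg_left (mul_le_mul_of_nonneg_left
            (mul_le_mul_of_nonneg_right (ht2 x).2 (abs_nonneg _)) (abs_nonneg _)) hκ0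
      _ = η / (2 * (m + 1)) * m + κ * (|u| * 2) * ∫ x, |Y k x - Z k x| ∂μ := by
          rw [integral_add (integrable_const _) (hYZi.const_mul _), integral_const,
            integral_const_mul, smul_eq_mul, mul_comm m]
      _ ≤ η / (2 * (m + 1)) * (m + 1) + (κ * (|u| * 2) + 1) *
            (η / (2 * (κ * (|u| * 2) + 1))) := by
          refine add_le_add (mul_le_mul_of_nonneg_left (by linarith) (by positivity)) ?_
          refine mul_le_mul (by linarith) h2 (integral_nonneg fun _ => abs_nonneg _)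
            (by positivity)
      _ = η := by field_simp; ring
  have h5 : nR μ q R (HY - HZ) ≤ 1 :=
    (nR_le μ q R _).trans ((mul_le_mul_right (ENNReal.ofReal_le_ofReal h4) _).trans hη1)
  have h6 : nR μ q R HY ≤ nR μ q R HZ + 1 := by
    have e1 : HY = HZ + (HY - HZ) := by abel
    rw [e1]
    exact (nR_add μ hq R hHZ (hHY.sub hHZ)).trans (add_le_add le_rfl h5)
  have h7 : T ≤ nR μ q R HZ :=
    (ENNReal.add_le_add_iff_right ENNReal.one_ne_top).1 (h1.trans h6)
  refine h7.trans ?_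
  unfold nR
  exact eLpNorm_mono_measure _ Measure.restrict_le_self

end Pool.Agent.H97.NF
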