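import Pool.Agent.H97.NF.Big
set_option autoImplicit false
set_option linter.unusedSectionVars false

/-! Condensation of the local examples into one density. -/

namespace Pool.Agent.H97.NF

open MeasureTheory Set Metric Filter Topology
open scoped ENNReal NNReal RealInnerProductSpace ContDiff FourierTransform ComplexConjugate
open Pool.Agent.Q97.RS (ch Fh ch_norm ch_add ch_conj ch_swap ch_sub_right ch_cont ch_cont' ch_cont'')
open Pool.Agent.Q193.RD

variable {V : Type*} [NormedAddCommGroup V] [InnerProductSpace ℝ V] [FiniteDimensional ℝ V]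
  [MeasurableSpace V] [BorelSpace V]

/-- disjoint balls centred on the sphere, which shrink to a given point -/
lemma disj_balls (hd : 2 ≤ Module.finrank ℝ V) (p : V) (hp : ‖p‖ = 1) :
    ∃ (y : ℕ → V) (ρ : ℕ → ℝ), (∀ N, ‖y N‖ = 1) ∧ (∀ N, 0 < ρ N) ∧
    (∀ N M, N ≠ M → Disjoint (ball (y N) (ρ N)) (ball (y M) (ρ M))) ∧
    (∀ x0, x0 ≠ p → ∃ δ : ℝ, 0 < δ ∧ ∃ i0 : ℕ, ∀ i, i0 ≤ i → ∀ z ∈ ball x0 δ,
      z ∉ ball (y i) (ρ i)) ∧ ∀ N, p ∉ ball (y N) (ρ N) := by
  obtain ⟨y, hy, hyp⟩ := pts hd p hp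
  have hd0 : ∀ m, 0 < dist (y m) p := fun m => dist_pos.2 (hy m).2
  have hdt : Tendsto (fun m => dist (y m) p) atTop (𝓝 0) := by
    have := hyp.dist (tendsto_const_nhds (x := p))
    rwa [dist_self] at this
  have hnext : ∀ m, ∃ m', dist (y m') p < dist (y m) p / 4 := fun m =>
    (hdt.eventually (gt_mem_nhds (by have := hd0 m; positivity))).exists
  choose g hg using hnext
  set φ : ℕ → ℕ := fun N => Nat.rec 0 (fun _ m => g m) N with hφ
  set d : ℕ → ℝ := fun N => dist (y (φ N)) p with hdd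
  have hdpos : ∀ N, 0 < d N := fun N => hd0 _
  have hds : ∀ N, d (N + 1) < d N / 4 := fun N => hg (φ N)
  have hdm : ∀ N k, d (N + 1 + k) ≤ d N / 4 := by
    intro N k
    induction k with
    | zero => exact (hds N).le
    | succ k ih =>
      have h1 := hds (N + 1 + k)
      have h2 := hdpos (N + 1 + k)
      have e1 : N + 1 + (k + 1) = N + 1 + k + 1 := by ring
      rw [e1]
      linarith
  have hdle : ∀ N, d N ≤ d 0 * (1 / 4) ^ N := by
    intro N
    induction N with
    | zero => simp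
    | succ N ih =>
      have h1 := hds N
      rw [pow_succ]
      nlinarith
  have hdz : Tendsto d atTop (𝓝 0) := by
    have h1 : Tendsto (fun N : ℕ => d 0 * (1 / 4 : ℝ) ^ N) atTop (𝓝 0) := by
      have := (tendsto_pow_atTop_nhds_zero_of_lt_one (r := (1 / 4 : ℝ)) (by norm_num)
        (by norm_num)).const_mul (d 0)
      simpa using this
    exact squeeze_zero (fun N => (hdpos N).le) hdle h1
  have hin : ∀ N x, x ∈ ball (y (φ N)) (d N / 2) → d N / 2 < dist x p ∧ dist x p < 3 * d N / 2 := by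
    intro N x hx
    rw [mem_ball] at hx
    have h1 := dist_triangle x (y (φ N)) p
    have h2 := dist_triangle (y (φ N)) x p
    rw [dist_comm (y (φ N)) x] at h2
    have h3 : dist (y (φ N)) p = d N := rfl
    constructor <;> linarith
  have hdj : ∀ N M, N < M → Disjoint (ball (y (φ N)) (d N / 2)) (ball (y (φ M)) (d M / 2)) := by
    intro N M hNM
    obtain ⟨k, rfl⟩ : ∃ k, M = N + 1 + k := ⟨M - (N + 1), by omega⟩
    rw [Set.disjoint_left]
    intro x h1 h2
    have h3 := (hin _ _ h1).1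
    have h4 := (hin _ _ h2).2
    have h5 := hdm N k
    have h6 := hdpos N
    linarith
  refine ⟨fun N => y (φ N), fun N => d N / 2, fun N => (hy _).1, fun N => half_pos (hdpos N),
    fun N M hNM => ?_, fun x0 hx0 => ?_, fun N h => ?_⟩
  · rcases lt_or_gt_of_ne hNM with h | h
    · exact hdj N M h
    · exact (hdj M N h).symm
  · have h0 : 0 < dist x0 p := dist_pos.2 hx0
    have h1 : ∀ᶠ N in atTop, d N < dist x0 p / 4 := hdz.eventually (gt_mem_nhds (by positivity))
    obtain ⟨i0, hi0⟩ := eventually_atTop.1 h1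
    refine ⟨dist x0 p / 2, half_pos h0, i0, fun i hi z hz hzi => ?_⟩
    rw [mem_ball] at hz
    have h2 := dist_triangle x0 z p
    rw [dist_comm z x0] at hz
    have h3 := (hin _ _ hzi).2
    have h4 := hi0 i hi
    linarith
  · have h1 := (hin _ _ h).1
    rw [dist_self] at h1
    have := hdpos N
    linarith

lemma up_bd (μ : Measure V) [IsFiniteMeasure μ] {g : V → ℂ} (hg : Bd g) {q q' : ℝ≥0∞}
    (hq : 1 ≤ q) (hqq : q ≤ q') (h : eLpNorm (Fh μ g) q volume < ⊤) :
    eLpNorm (Fh μ g) q' volume < ⊤ := by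
  set B : ℝ := ∫ x, ‖g x‖ ∂μ with hB
  have hB0 : 0 ≤ B := integral_nonneg fun _ => norm_nonneg _
  have hB1 : 0 < B + 1 := by linarith
  set G : V → ℂ := (((B + 1)⁻¹ : ℝ) : ℂ) • g with hG
  have hGg : g = (((B + 1 : ℝ)) : ℂ) • G := by
    rw [hG, smul_smul, ← Complex.ofReal_mul, mul_inv_cancel₀ hB1.ne', Complex.ofReal_one, one_smul]
  have h1 : ∀ ξ, ‖Fh μ G ξ‖ₑ ≤ 1 := by
    intro ξ
    rw [hG, Fh_smul, Pi.smul_apply, ← ofReal_norm, norm_smul, Complex.norm_real, Real.norm_eq_abs,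
      abs_of_nonneg (by positivity)]
    rw [ENNReal.ofReal_le_one, inv_mul_le_iff₀ hB1, mul_one]
    exact (Fh_le_int μ g ξ).trans (by linarith)
  have h2 : eLpNorm (Fh μ G) q volume < ⊤ := by
    rw [hG, Fh_smul, eLpNorm_const_smul]
    exact ENNReal.mul_lt_top enorm_lt_top h
  have h3 := up volume h1 hq hqq
  rw [hGg, Fh_smul, eLpNorm_const_smul]
  exact ENNReal.mul_lt_top enorm_lt_top (h3.trans_lt (max_lt ENNReal.one_lt_top h2))

lemma top_bd (μ : Measure V) [IsFiniteMeasure μ] {g : V → ℂ} :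
    eLpNorm (Fh μ g) ⊤ volume < ⊤ := by
  refine (eLpNorm_le_of_ae_bound (p := ⊤) (C := ∫ x, ‖g x‖ ∂μ)
    (Eventually.of_forall (Fh_le_int μ g))).trans_lt ?_
  simp

/-- **Condensation.** -/
theorem glue (μ : Measure V) [IsFiniteMeasure μ] (hsph : ∀ᵐ x ∂μ, ‖x‖ = 1)
    (hinv : ∀ L : V ≃ₗᵢ[ℝ] V, MeasurePreserving L μ μ) (hd : 2 ≤ Module.finrank ℝ V)
    (z0 : V) (hz0 : ‖z0‖ = 1) {p0 : ℝ} (hp0 : 1 ≤ p0) {Y Z : ℕ → V → ℝ}
    (hYm : ∀ k, Measurable (Y k)) (hYv : ∀ k x, Y k x = 1 ∨ Y k x = -1)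
    (hYs : ∀ δ : ℝ, 0 < δ → ∃ K : ℕ, ∀ k, K ≤ k → ∀ ξ, ‖Fh μ (fun x => (Y k x : ℂ)) ξ‖ ≤ δ)
    (hZm : ∀ k, ContDiff ℝ ∞ (Z k)) (hZ3 : ∀ k x, |Z k x| ≤ 3)
    (hYZ : ∀ δ : ℝ, 0 < δ → ∃ K : ℕ, ∀ k, K ≤ k → ∫ x, |Y k x - Z k x| ∂μ ≤ δ)
    (hZp : ∀ p : ℝ, p0 < p → Tendsto (fun k =>
      eLpNorm (Fh μ (fun x => (Z k x : ℂ))) (ENNReal.ofReal p) volume) atTop (𝓝 0) ∧
      ∀ k, eLpNorm (Fh μ (fun x => (Z k x : ℂ))) (ENNReal.ofReal p) volume < ⊤)
    (hone : ∀ p : ℝ, p0 < p → eLpNorm (Fh μ (fun _ => (1 : ℂ))) (ENNReal.ofReal p) volume < ⊤)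
    {f : ℝ → ℂ} (hf : Continuous f) {c0 : ℝ}
    (hna : ∀ δ : ℝ, 0 < δ → ∃ c u : ℝ, |c - c0| < δ ∧ |u| < δ ∧ f (c + u) + f (c - u) ≠ 2 * f c)
    {δ0 : ℝ} (hδ0 : 0 < δ0) :
    ∃ W : V → ℝ, Continuous W ∧ ContDiffOn ℝ ∞ W {z0}ᶜ ∧ W z0 = c0 ∧ (∀ x, |W x - c0| ≤ δ0) ∧
      (∀ p : ℝ, p0 < p → eLpNorm (Fh μ (fun x => (W x : ℂ))) (ENNReal.ofReal p) volume < ⊤) ∧
      ∀ p : ℝ, p0 < p → eLpNorm (Fh μ (fun x => f (W x))) (ENNReal.ofReal p) volume < ⊤ →
        ∀ g : V → ℂ, Bd g → eLpNorm (Fh μ g) (ENNReal.ofReal p) volume < ⊤ := by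
  classical
  obtain ⟨y, ρ, hy, hρ, hdis, hlf, hz0b⟩ := disj_balls (V := V) hd z0 hz0
  set Fs : Set ℝ≥0∞ := {q | ENNReal.ofReal p0 < q ∧ ∃ g : V → ℂ, Bd g ∧
    eLpNorm (Fh μ g) q volume = ⊤} with hFs
  have hofone : 1 ≤ ENNReal.ofReal p0 := by
    rw [← ENNReal.ofReal_one]
    exact ENNReal.ofReal_le_ofReal hp0
  have hFs1 : ∀ q ∈ Fs, 1 ≤ q := fun q hq => hofone.trans hq.1.le
  have hFst : ∀ q ∈ Fs, q ≠ ⊤ := by
    rintro q ⟨-, g', -, hg'⟩ h0
    rw [h0] at hg'
    exact (top_bd μ (g := g')).ne hg'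
  obtain ⟨D, hD1, hD2⟩ := cofinal Fs
  have h1b : Bd (fun _ : V => (1 : ℂ)) := ⟨measurable_const, 1, fun x => by simp⟩
  set η : (N : ℕ) → ContDiffBump (y N) := fun N =>
    ⟨ρ N / 2, ρ N, half_pos (hρ N), half_lt_self (hρ N)⟩ with hη
  set χ : (N : ℕ) → ContDiffBump (y N) := fun N =>
    ⟨ρ N / 4, ρ N / 2, by have := hρ N; positivity, by have := hρ N; linarith⟩ with hχ
  -- bumps
  have hbump : ∀ (z : V) (b : ContDiffBump z), HasCompactSupport (fun x => ((b x : ℝ) : ℂ)) ∧
      ContDiff ℝ ∞ (fun x => ((b x : ℝ) : ℂ)) := by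
    intro z b
    refine ⟨HasCompactSupport.of_support_subset_isCompact (isCompact_closedBall z b.rOut) ?_,
      Complex.ofRealCLM.contDiff.comp b.contDiff⟩
    intro x hx
    rw [Function.mem_support, Complex.ofReal_ne_zero] at hx
    have : x ∈ Function.support b := hx
    rw [b.support_eq] at this
    exact ball_subset_closedBall this
  set e : ℕ → ℝ := fun N => fn (fun x => ((η N x : ℝ) : ℂ)) with he
  set a : ℕ → ℝ := fun N => fn (fun x => ((χ N x : ℝ) : ℂ)) with ha
  have he0 : ∀ N, 0 ≤ e N := fun N => fn_nn _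
  set l : ℕ → ℕ := fun N => (Nat.unpair N).1 with hl
  set T : ℕ → ℝ≥0∞ := fun N => (ENNReal.ofReal (a N) + 1) * (N : ℝ≥0∞) with hT
  have hTt : ∀ N, T N ≠ ⊤ := by
    intro N
    refine ENNReal.mul_ne_top ?_ (ENNReal.natCast_ne_top N)
    simp
  set P : ℕ → ℝ := fun i => p0 + 1 / ((i : ℝ) + 1) with hP
  have hP0 : ∀ i, p0 < P i := by
    intro i
    simp only [hP]
    have : (0 : ℝ) < 1 / ((i : ℝ) + 1) := by positivity
    linarith
  have hP1 : ∀ i, 1 ≤ P i := fun i => hp0.trans (hP0 i).le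
  have hP1' : ∀ i, 1 ≤ ENNReal.ofReal (P i) := fun i => by
    rw [← ENNReal.ofReal_one]
    exact ENNReal.ofReal_le_ofReal (hP1 i)
  set O : ℕ → ℝ := fun i => (eLpNorm (Fh μ (fun _ => (1 : ℂ))) (ENNReal.ofReal (P i))
    volume).toReal with hO
  have hO0 : ∀ i, 0 ≤ O i := fun i => ENNReal.toReal_nonneg
  have hOe : ∀ i, eLpNorm (Fh μ (fun _ => (1 : ℂ))) (ENNReal.ofReal (P i)) volume =
      ENNReal.ofReal (O i) := fun i => (ENNReal.ofReal_toReal (hone _ (hP0 i)).ne).symm
  set G : ℕ → ℝ := fun N => ∑ i ∈ Finset.range (N + 1), O i with hG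
  have hG0 : ∀ N, 0 ≤ G N := fun N => Finset.sum_nonneg fun i _ => hO0 i
  have hGO : ∀ N i, i ≤ N → O i ≤ G N := fun N i hi =>
    Finset.single_le_sum (f := O) (fun i _ => hO0 i) (Finset.mem_range.2 (by omega))
  -- the amplitudes
  set δ : ℕ → ℝ := fun N => min δ0 1 * (1 / 2) ^ N / (14 * (1 + e N * G N)) with hδ
  have hδpos : ∀ N, 0 < δ N := by
    intro N
    simp only [hδ]
    have := he0 N
    have := hG0 N
    have : 0 < min δ0 1 := lt_min hδ0 one_pos
    positivity
  have hδ1 : ∀ N, 14 * (1 + e N * G N) * δ N = min δ0 1 * (1 / 2) ^ N := by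
    intro N
    simp only [hδ]
    have := he0 N
    have := hG0 N
    field_simp
  have hδ2 : ∀ N, 14 * δ N ≤ min δ0 1 * (1 / 2) ^ N := by
    intro N
    rw [← hδ1 N]
    have h1 := mul_nonneg (he0 N) (hG0 N)
    have h2 := hδpos N
    nlinarith [mul_nonneg h1 h2.le]
  have hδ3 : ∀ N, δ N * (e N * G N) ≤ (1 / 2) ^ N := by
    intro N
    have h1 := mul_nonneg (he0 N) (hG0 N)
    have h2 := hδpos N
    have h3 : min δ0 1 * (1 / 2 : ℝ) ^ N ≤ 1 * (1 / 2) ^ N :=
      mul_le_mul_of_nonneg_right (min_le_right _ _) (by positivity)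
    have h4 := hδ1 N
    nlinarith [mul_nonneg h1 h2.le]
  have hpow1 : ∀ N : ℕ, (1 / 2 : ℝ) ^ N ≤ 1 := fun N => pow_le_one₀ (by norm_num) (by norm_num)
  have hδ4 : ∀ N, δ N ≤ 1 := by
    intro N
    have h1 := hδ2 N
    have h2 := hδpos N
    have h3 : min δ0 1 * (1 / 2 : ℝ) ^ N ≤ 1 * 1 :=
      mul_le_mul (min_le_right _ _) (hpow1 N) (by positivity) zero_le_one
    linarith
  choose c u hc hu hcu using fun N => hna (δ N) (hδpos N)
  -- local examples
  have hloc : ∀ N, ∃ t : V → ℝ, ContDiff ℝ ∞ t ∧ (∀ x, 0 ≤ t x ∧ t x ≤ 2) ∧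
      (∀ x, x ∉ ball (y N) (ρ N / 4) → t x = 0) ∧ ∃ K : ℕ, ∀ k, K ≤ k → D (l N) ∈ Fs →
        T N ≤ eLpNorm (Fh μ (fun x => f (c N + u N * (t x * Z k x)) - f (c N))) (D (l N))
          volume := by
    intro N
    by_cases hDF : D (l N) ∈ Fs
    · obtain ⟨t, h1, h2, h3, K, hK⟩ := big μ hsph hinv hYm hYv hYs
        (fun k => (hZm k).continuous.measurable) hZ3 hYZ hf (hcu N) (hFs1 _ hDF) hDF.2 (y N) (hy N)
        (ρ := ρ N / 4) (by have := hρ N; positivity) (hTt N)
      exact ⟨t, h1, h2, h3, K, fun k hk _ => hK k hk⟩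
    · exact ⟨fun _ => 0, contDiff_const, fun x => ⟨le_rfl, by norm_num⟩, fun x _ => rfl, 0,
        fun k _ h => absurd h hDF⟩
  choose t ht1 ht2 ht3 K hK using hloc
  have htc : ∀ N, HasCompactSupport (fun x => ((t N x : ℝ) : ℂ)) := by
    intro N
    refine HasCompactSupport.of_support_subset_isCompact (isCompact_closedBall (y N) (ρ N / 4)) ?_
    intro x hx
    by_contra hcon
    rw [Function.mem_support] at hx
    apply hx
    rw [ht3 N x (fun h => hcon (ball_subset_closedBall h)), Complex.ofReal_zero]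
  have htd : ∀ N, ContDiff ℝ ∞ (fun x => ((t N x : ℝ) : ℂ)) := fun N =>
    Complex.ofRealCLM.contDiff.comp (ht1 N)
  have hZb : ∀ k, Bd (fun x => ((Z k x : ℝ) : ℂ)) := by
    intro k
    refine ⟨Complex.measurable_ofReal.comp (hZm k).continuous.measurable, 3, fun x => ?_⟩
    rw [Complex.norm_real, Real.norm_eq_abs]
    exact hZ3 k x
  -- frequencies
  have hfreq : ∀ N, ∃ k, K N ≤ k ∧ ∀ i ≤ N,
      eLpNorm (Fh μ (fun x => ((t N x : ℝ) : ℂ) * ((Z k x : ℝ) : ℂ))) (ENNReal.ofReal (P i))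
        volume ≤ (1 / 2) ^ N := by
    intro N
    have h1 : ∀ i, ∀ᶠ k in atTop, eLpNorm (Fh μ (fun x => ((t N x : ℝ) : ℂ) * ((Z k x : ℝ) : ℂ)))
        (ENNReal.ofReal (P i)) volume ≤ (1 / 2) ^ N := by
      intro i
      have h2 : Tendsto (fun k => ENNReal.ofReal (fn (fun x => ((t N x : ℝ) : ℂ))) *
          eLpNorm (Fh μ (fun x => (Z k x : ℂ))) (ENNReal.ofReal (P i)) volume) atTop (𝓝 0) := by
        have := ENNReal.Tendsto.const_mul (hZp (P i) (hP0 i)).1
          (Or.inr (ENNReal.ofReal_ne_top (r := fn (fun x => ((t N x : ℝ) : ℂ)))))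
        rwa [mul_zero] at this
      have h3 : (0 : ℝ≥0∞) < (1 / 2) ^ N := by
        refine ENNReal.pow_pos ?_ N
        simp
      filter_upwards [h2.eventually (gt_mem_nhds h3)] with k hk
      exact (Fh_mul_Lp μ (htc N) (htd N) (hZb k) (hP1 i)).trans hk.le
    have h4 : ∀ᶠ k in atTop, ∀ i ∈ Finset.range (N + 1),
        eLpNorm (Fh μ (fun x => ((t N x : ℝ) : ℂ) * ((Z k x : ℝ) : ℂ)))
        (ENNReal.ofReal (P i)) volume ≤ (1 / 2) ^ N :=
      (Filter.eventually_all_finset (Finset.range (N + 1))).2 fun i _ => h1 i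
    obtain ⟨k, hk1, hk2⟩ := (h4.and (eventually_ge_atTop (K N))).exists
    exact ⟨k, hk2, fun i hi => hk1 i (Finset.mem_range.2 (by omega))⟩
  choose k hk1 hk2 using hfreq
  set w : ℕ → V → ℝ := fun N x => (c N - c0) * η N x + u N * (t N x * Z (k N) x) with hw
  have hwd : ∀ N, ContDiff ℝ ∞ (w N) := fun N =>
    (contDiff_const.mul (η N).contDiff).add (contDiff_const.mul ((ht1 N).mul (hZm _)))
  have hwm : ∀ N, Measurable (w N) := fun N => (hwd N).continuous.measurable
  have hw2 : ∀ N x, |w N x| ≤ δ0 * (1 / 2) ^ N := by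
    intro N x
    simp only [hw]
    obtain ⟨h1, h2⟩ := ht2 N x
    have h3 : |(c N - c0) * η N x| ≤ δ N := by
      rw [abs_mul, abs_of_nonneg (η N).nonneg]
      exact (mul_le_of_le_one_right (abs_nonneg _) (η N).le_one).trans (hc N).le
    have h4 : |u N * (t N x * Z (k N) x)| ≤ δ N * 6 := by
      rw [abs_mul]
      refine mul_le_mul (hu N).le ?_ (abs_nonneg _) (hδpos N).le
      rw [abs_mul, abs_of_nonneg h1]
      have := hZ3 (k N) x
      have := abs_nonneg (Z (k N) x)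
      nlinarith
    have h5 := hδ2 N
    have h6 : min δ0 1 * (1 / 2 : ℝ) ^ N ≤ δ0 * (1 / 2) ^ N :=
      mul_le_mul_of_nonneg_right (min_le_left _ _) (by positivity)
    have h7 := hδpos N
    refine (abs_add_le _ _).trans ?_
    linarith
  have hw2' : ∀ N x, |w N x| ≤ δ0 := fun N x =>
    (hw2 N x).trans (mul_le_of_le_one_right hδ0.le (hpow1 N))
  have hw0' : ∀ N x, x ∉ ball (y N) (ρ N) → w N x = 0 := by
    intro N x hx
    have h1 : η N x = 0 := by
      rw [← Function.notMem_support, (η N).support_eq]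
      exact hx
    have h2 : t N x = 0 := ht3 N x fun h => hx (ball_subset_ball (by linarith [hρ N]) h)
    simp only [hw]
    rw [h1, h2]
    ring
  set W : V → ℝ := fun x => ∑' N, w N x with hW
  have hWN : ∀ N x, x ∈ ball (y N) (ρ N) → W x = w N x := by
    intro N x hx
    simp only [hW]
    refine tsum_eq_single N fun M hM => hw0' M x fun h => ?_
    exact Set.disjoint_left.1 (hdis M N hM) h hx
  have hW0 : ∀ x, (∀ N, x ∉ ball (y N) (ρ N)) → W x = 0 := by
    intro x hx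
    simp only [hW]
    rw [show (fun N => w N x) = fun _ => 0 from funext fun N => hw0' N x (hx N), tsum_zero]
  have hW2 : ∀ x, |W x| ≤ δ0 := by
    intro x
    by_cases h : ∃ N, x ∈ ball (y N) (ρ N)
    · obtain ⟨N, hN⟩ := h
      rw [hWN N x hN]
      exact hw2' N x
    · push Not at h
      rw [hW0 x h, abs_zero]
      exact hδ0.le
  have hWc : Continuous W := by
    simp only [hW]
    refine continuous_tsum (u := fun N : ℕ => δ0 * (1 / 2 : ℝ) ^ N)
      (fun N => (hwd N).continuous) ?_ fun N x => ?_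
    · exact (summable_geometric_of_lt_one (by norm_num) (by norm_num)).mul_left δ0
    · rw [Real.norm_eq_abs]
      exact hw2 N x
  have hWs : ContDiffOn ℝ ∞ W {z0}ᶜ := by
    intro x0 hx0
    refine ContDiffAt.contDiffWithinAt ?_
    obtain ⟨δ', hδ', i0, hi0⟩ := hlf x0 hx0
    have hz : ∀ z ∈ ball x0 δ', W z = ∑ j ∈ Finset.range i0, w j z := by
      intro z hz
      refine tsum_eq_sum fun j hj => ?_
      rw [Finset.mem_range, not_lt] at hj
      exact hw0' j z (hi0 j hj z hz)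
    have hcd : ContDiffAt ℝ ∞ (fun z => ∑ j ∈ Finset.range i0, w j z) x0 :=
      (ContDiff.sum fun j _ => hwd j).contDiffAt
    exact hcd.congr_of_eventuallyEq (eventually_of_mem (ball_mem_nhds x0 hδ') hz)
  -- partial sums
  set S : ℕ → V → ℝ := fun m x => ∑ N ∈ Finset.range m, w N x with hS
  have hSv : ∀ m x, (∀ N, x ∉ ball (y N) (ρ N)) → S m x = 0 := fun m x hx =>
    Finset.sum_eq_zero fun N _ => hw0' N x (hx N)
  have hSv' : ∀ m x N, x ∈ ball (y N) (ρ N) → S m x = if N < m then w N x else 0 := by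
    intro m x N hN
    have h1 : ∀ M, M ≠ N → w M x = 0 := fun M hM => hw0' M x fun h =>
      Set.disjoint_left.1 (hdis M N hM) h hN
    simp only [hS]
    split_ifs with h2
    · exact Finset.sum_eq_single N (fun M _ hM => h1 M hM)
        (fun h3 => absurd (Finset.mem_range.2 h2) h3)
    · refine Finset.sum_eq_zero fun M hM => h1 M ?_
      have := Finset.mem_range.1 hM
      omega
  have hSt : ∀ x, ∀ᶠ m in atTop, S m x = W x := by
    intro x
    by_cases h : ∃ N, x ∈ ball (y N) (ρ N)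
    · obtain ⟨N, hN⟩ := h
      filter_upwards [eventually_gt_atTop N] with m hm
      rw [hSv' m x N hN, if_pos hm, hWN N x hN]
    · push Not at h
      refine Eventually.of_forall fun m => ?_
      rw [hSv m x h, hW0 x h]
  have hSm : ∀ m, Measurable (S m) := fun m => by
    simp only [hS]
    exact Finset.measurable_sum (Finset.range m) fun N _ => hwm N
  have hS2 : ∀ m x, |S m x| ≤ δ0 := by
    intro m x
    by_cases h : ∃ N, x ∈ ball (y N) (ρ N)
    · obtain ⟨N, hN⟩ := h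
      rw [hSv' m x N hN]
      split_ifs
      · exact hw2' N x
      · rw [abs_zero]; exact hδ0.le
    · push Not at h
      rw [hSv m x h, abs_zero]
      exact hδ0.le
  have hStt : ∀ x, Tendsto (fun m => S m x) atTop (𝓝 (W x)) := fun x =>
    tendsto_const_nhds.congr' ((hSt x).mono fun m hm => hm.symm)
  have hwb : ∀ N, Bd (fun x => ((w N x : ℝ) : ℂ)) := fun N =>
    ⟨Complex.measurable_ofReal.comp (hwm N), δ0, fun x => by
      rw [Complex.norm_real, Real.norm_eq_abs]; exact hw2' N x⟩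
  have hWb : Bd (fun x => ((W x : ℝ) : ℂ)) :=
    ⟨Complex.measurable_ofReal.comp hWc.measurable, δ0, fun x => by
      rw [Complex.norm_real, Real.norm_eq_abs]; exact hW2 x⟩
  have hSb : ∀ m, Bd (fun x => ((S m x : ℝ) : ℂ)) := fun m =>
    ⟨Complex.measurable_ofReal.comp (hSm m), δ0, fun x => by
      rw [Complex.norm_real, Real.norm_eq_abs]; exact hS2 m x⟩
  have hFS : ∀ m, Fh μ (fun x => ((S m x : ℝ) : ℂ)) =
      ∑ N ∈ Finset.range m, Fh μ (fun x => ((w N x : ℝ) : ℂ)) := by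
    intro m
    induction m with
    | zero =>
      funext ξ
      simp [hS, Fh]
    | succ m ih =>
      rw [Finset.sum_range_succ, ← ih, ← Fh_add μ (hSb m) (hwb m)]
      congr 1
      funext x
      simp only [hS, Pi.add_apply]
      rw [Finset.sum_range_succ]
      push_cast
      rfl
  have hFSt : ∀ ξ, Tendsto (fun m => Fh μ (fun x => ((S m x : ℝ) : ℂ)) ξ) atTop
      (𝓝 (Fh μ (fun x => ((W x : ℝ) : ℂ)) ξ)) := by
    intro ξ
    unfold Fh
    refine tendsto_integral_of_dominated_convergence (fun _ => δ0)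
      (fun m => ((ch_cont' ξ).measurable.mul (hSb m).1).aestronglyMeasurable)
      (integrable_const _) (fun m => Eventually.of_forall fun x => ?_)
      (Eventually.of_forall fun x => ?_)
    · rw [norm_mul, ch_norm, one_mul, Complex.norm_real, Real.norm_eq_abs]
      exact hS2 m x
    · exact ((Complex.continuous_ofReal.tendsto _).comp (hStt x)).const_mul _
  -- the value at good exponents
  have hgood : ∀ i, eLpNorm (Fh μ (fun x => ((W x : ℝ) : ℂ))) (ENNReal.ofReal (P i)) volume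
      < ⊤ := by
    intro i
    set b : ℕ → ℝ≥0∞ := fun N =>
      eLpNorm (Fh μ (fun x => ((w N x : ℝ) : ℂ))) (ENNReal.ofReal (P i)) volume with hb
    have hηb : ∀ N, Bd (fun x => ((η N x : ℝ) : ℂ) * (1 : ℂ)) := fun N =>
      ⟨(hbump _ (η N)).2.continuous.measurable.mul measurable_const, 1, fun x => by
        change ‖((η N x : ℝ) : ℂ) * 1‖ ≤ 1
        rw [mul_one, Complex.norm_real, Real.norm_eq_abs, abs_of_nonneg (η N).nonneg]
        exact (η N).le_one⟩
    have htZb : ∀ N, Bd (fun x => ((t N x : ℝ) : ℂ) * ((Z (k N) x : ℝ) : ℂ)) := fun N =>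
      ⟨(htd N).continuous.measurable.mul (hZb _).1, 6, fun x => by
        change ‖((t N x : ℝ) : ℂ) * ((Z (k N) x : ℝ) : ℂ)‖ ≤ 6
        rw [← Complex.ofReal_mul, Complex.norm_real, Real.norm_eq_abs, abs_mul,
          abs_of_nonneg (ht2 N x).1]
        have := hZ3 (k N) x
        have := abs_nonneg (Z (k N) x)
        have := (ht2 N x).1
        have := (ht2 N x).2
        nlinarith⟩
    have hwe : ∀ N, (fun x => ((w N x : ℝ) : ℂ)) =
        ((c N - c0 : ℝ) : ℂ) • (fun x => ((η N x : ℝ) : ℂ) * (1 : ℂ)) +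
        ((u N : ℝ) : ℂ) • (fun x => ((t N x : ℝ) : ℂ) * ((Z (k N) x : ℝ) : ℂ)) := by
      intro N
      funext x
      simp only [hw, Pi.add_apply, Pi.smul_apply, smul_eq_mul, mul_one]
      push_cast
      rfl
    have hwn : ∀ N, b N ≤ ENNReal.ofReal (δ N) * (ENNReal.ofReal (e N) * ENNReal.ofReal (O i)) +
        eLpNorm (Fh μ (fun x => ((t N x : ℝ) : ℂ) * ((Z (k N) x : ℝ) : ℂ)))
          (ENNReal.ofReal (P i)) volume := by
      intro N
      simp only [hb]
      rw [hwe, Fh_add μ ((hηb N).smul _) ((htZb N).smul _), Fh_smul, Fh_smul]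
      refine (eLpNorm_add_le ((Fh_sm μ (hηb N)).const_smul _).aestronglyMeasurable
        ((Fh_sm μ (htZb N)).const_smul _).aestronglyMeasurable (hP1' i)).trans ?_
      rw [eLpNorm_const_smul, eLpNorm_const_smul]
      refine add_le_add ?_ ?_
      · refine mul_le_mul' ?_ ?_
        · rw [← ofReal_norm, Complex.norm_real, Real.norm_eq_abs]
          exact ENNReal.ofReal_le_ofReal (hc N).le
        · rw [← hOe i]
          exact Fh_mul_Lp μ (hbump _ (η N)).1 (hbump _ (η N)).2 h1b (hP1 i)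
      · refine mul_le_of_le_one_left' ?_
        rw [← ofReal_norm, Complex.norm_real, Real.norm_eq_abs, ENNReal.ofReal_le_one]
        exact (hu N).le.trans (hδ4 N)
    have hb1 : ∀ N, i ≤ N → b N ≤ (1 / 2) ^ N + (1 / 2) ^ N := by
      intro N hN
      refine (hwn N).trans (add_le_add ?_ (hk2 N i hN))
      rw [← ENNReal.ofReal_mul (he0 N), ← ENNReal.ofReal_mul (hδpos N).le]
      have h1 : δ N * (e N * O i) ≤ (1 / 2) ^ N := by
        refine le_trans ?_ (hδ3 N)
        exact mul_le_mul_of_nonneg_left (mul_le_mul_of_nonneg_left (hGO N i hN) (he0 N))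
          (hδpos N).le
      refine (ENNReal.ofReal_le_ofReal h1).trans (le_of_eq ?_)
      rw [ENNReal.ofReal_pow (by norm_num), ENNReal.ofReal_div_of_pos (by norm_num)]
      simp
    have hb2 : ∀ N, b N < ⊤ := by
      intro N
      refine (hwn N).trans_lt (ENNReal.add_lt_top.2 ⟨?_, ?_⟩)
      · exact ENNReal.mul_lt_top ENNReal.ofReal_lt_top
          (ENNReal.mul_lt_top ENNReal.ofReal_lt_top ENNReal.ofReal_lt_top)
      · refine (Fh_mul_Lp μ (htc N) (htd N) (hZb _) (hP1 i)).trans_lt ?_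
        exact ENNReal.mul_lt_top ENNReal.ofReal_lt_top ((hZp _ (hP0 i)).2 _)
    have h1 : ∀ m, eLpNorm (Fh μ (fun x => ((S m x : ℝ) : ℂ))) (ENNReal.ofReal (P i)) volume ≤
        ∑ N ∈ Finset.range i, b N + ∑' N : ℕ, ((1 / 2 : ℝ≥0∞) ^ N + (1 / 2) ^ N) := by
      intro m
      rw [hFS]
      refine (eLpNorm_sum_le (fun N _ => (Fh_sm μ (hwb N)).aestronglyMeasurable) (hP1' i)).trans ?_
      calc ∑ N ∈ Finset.range m, b N ≤
          ∑ N ∈ Finset.range m, ((if N < i then b N else 0) + ((1 / 2) ^ N + (1 / 2) ^ N)) := by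
            refine Finset.sum_le_sum fun N _ => ?_
            split_ifs with h
            · exact le_self_add
            · rw [zero_add]
              exact hb1 N (not_lt.1 h)
        _ = ∑ N ∈ Finset.range m, (if N < i then b N else 0) +
            ∑ N ∈ Finset.range m, ((1 / 2 : ℝ≥0∞) ^ N + (1 / 2) ^ N) := Finset.sum_add_distrib
        _ ≤ _ := by
            refine add_le_add ?_ (ENNReal.sum_le_tsum _)
            rw [← Finset.sum_filter]
            refine Finset.sum_le_sum_of_subset fun N hN => ?_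
            exact Finset.mem_range.2 (Finset.mem_filter.1 hN).2
    have h2 := Lp.eLpNorm_lim_le_liminf_eLpNorm (p := ENNReal.ofReal (P i))
      (μ := (volume : Measure V))
      (f := fun m : ℕ => Fh μ (fun x => ((S m x : ℝ) : ℂ)))
      (fun m => (Fh_sm μ (hSb m)).aestronglyMeasurable) (Fh μ (fun x => ((W x : ℝ) : ℂ)))
      (Eventually.of_forall hFSt)
    refine (h2.trans (liminf_le_liminf (Eventually.of_forall h1))).trans_lt ?_
    rw [liminf_const]
    refine ENNReal.add_lt_top.2 ⟨ENNReal.sum_lt_top.2 fun N _ => hb2 N, ?_⟩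
    rw [ENNReal.tsum_add, ENNReal.tsum_geometric, one_div, ENNReal.one_sub_inv_two, inv_inv]
    norm_num
  -- the answer
  have hXb : Bd (fun x => ((c0 + W x : ℝ) : ℂ)) :=
    ⟨Complex.measurable_ofReal.comp (hWc.measurable.const_add c0), |c0| + δ0, fun x => by
      rw [Complex.norm_real, Real.norm_eq_abs]
      exact (abs_add_le _ _).trans (add_le_add le_rfl (hW2 x))⟩
  refine ⟨fun x => c0 + W x, continuous_const.add hWc, contDiffOn_const.add hWs, ?_,
    fun x => by rw [add_sub_cancel_left]; exact hW2 x, fun p hp => ?_, fun p hp hfin g hg => ?_⟩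
  · change c0 + W z0 = c0
    rw [hW0 z0 hz0b, add_zero]
  · obtain ⟨i, hi⟩ := exists_nat_one_div_lt (sub_pos.2 hp)
    have h1 : eLpNorm (Fh μ (fun x => ((W x : ℝ) : ℂ))) (ENNReal.ofReal p) volume < ⊤ := by
      refine up_bd μ hWb (hP1' i) ?_ (hgood i)
      refine ENNReal.ofReal_le_ofReal ?_
      simp only [hP]
      linarith
    have e1 : (fun x => ((c0 + W x : ℝ) : ℂ)) = (c0 : ℂ) • (fun _ => (1 : ℂ)) +
        (fun x => ((W x : ℝ) : ℂ)) := by
      funext x
      simp
    have hp1 : 1 ≤ ENNReal.ofReal p := hofone.trans (ENNReal.ofReal_le_ofReal hp.le)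
    rw [e1, Fh_add _ (h1b.smul _) hWb, Fh_smul]
    refine (eLpNorm_add_le ((Fh_sm _ h1b).const_smul _).aestronglyMeasurable
      (Fh_sm _ hWb).aestronglyMeasurable hp1).trans_lt (ENNReal.add_lt_top.2 ⟨?_, h1⟩)
    rw [eLpNorm_const_smul]
    exact ENNReal.mul_lt_top enorm_lt_top (hone p hp)
  · by_contra hcon
    have hp1 : 1 ≤ ENNReal.ofReal p := hofone.trans (ENNReal.ofReal_le_ofReal hp.le)
    have hqF : ENNReal.ofReal p ∈ Fs :=
      ⟨(ENNReal.ofReal_lt_ofReal_iff (by linarith)).2 hp, g, hg, not_lt_top_iff.1 hcon⟩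
    obtain ⟨l0, hl1, hl2⟩ := hD2 _ hqF
    set H : V → ℂ := fun x => f (c0 + W x) with hH
    have hHb : Bd H := by
      obtain ⟨B, hB⟩ := (isCompact_Icc (a := c0 - δ0) (b := c0 + δ0)
        ).exists_bound_of_continuousOn hf.continuousOn
      refine ⟨hf.measurable.comp (hWc.measurable.const_add c0), B, fun x => hB _ ?_⟩
      have h1 := hW2 x
      rw [abs_le] at h1
      constructor <;> linarith
    obtain ⟨B1, hB1⟩ := (isCompact_Icc (a := c0 - 1) (b := c0 + 1)
        ).exists_bound_of_continuousOn hf.continuousOn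
    have hfc : ∀ N, ‖f (c N)‖ ≤ B1 := by
      intro N
      refine hB1 _ ?_
      have h1 := (hc N).le.trans (hδ4 N)
      rw [abs_le] at h1
      constructor <;> linarith
    have hX := up_bd μ hHb hp1 hl1 hfin
    set X : ℝ≥0∞ := eLpNorm (Fh μ H) (D l0) volume with hXd
    have hDt : D l0 ≠ ⊤ := hFst _ hl2
    have hDp0 : p0 < (D l0).toReal := by
      rw [← ENNReal.ofReal_lt_iff_lt_toReal (by linarith) hDt]
      exact hl2.1
    have hD1' : 1 ≤ (D l0).toReal := hp0.trans hDp0.le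
    set X1 : ℝ≥0∞ := eLpNorm (Fh μ (fun _ => (1 : ℂ))) (D l0) volume with hX1d
    have hX1 : X1 < ⊤ := by
      have := hone _ hDp0
      rwa [ENNReal.ofReal_toReal hDt] at this
    set X2 : ℝ≥0∞ := X + ENNReal.ofReal B1 * X1 with hX2d
    have hX2 : X2 < ⊤ := ENNReal.add_lt_top.2 ⟨hX, ENNReal.mul_lt_top ENNReal.ofReal_lt_top hX1⟩
    have key : ∀ m : ℕ, (m : ℝ≥0∞) ≤ X2 := by
      intro m
      set N := Nat.pair l0 m with hN
      have hlN : l N = l0 := by simp only [hl, hN, Nat.unpair_pair]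
      have hmN : m ≤ N := Nat.right_le_pair l0 m
      have h1 := hK N (k N) (hk1 N) (by rw [hlN]; exact hl2)
      rw [hlN] at h1
      obtain ⟨h3, h4⟩ := hbump _ (χ N)
      have hχb : ∀ {h : V → ℂ}, Bd h → Bd (fun x => ((χ N x : ℝ) : ℂ) * h x) := by
        intro h hh
        obtain ⟨B, hB⟩ := hh.2
        refine ⟨h4.continuous.measurable.mul hh.1, B, fun x => ?_⟩
        rw [norm_mul, Complex.norm_real, Real.norm_eq_abs, abs_of_nonneg (χ N).nonneg]
        exact (mul_le_of_le_one_left (norm_nonneg _) (χ N).le_one).trans (hB x)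
      have h2 : (fun x => f (c N + u N * (t N x * Z (k N) x)) - f (c N)) =
          (fun x => ((χ N x : ℝ) : ℂ) * H x) +
            (-f (c N)) • (fun x => ((χ N x : ℝ) : ℂ) * (1 : ℂ)) := by
        funext x
        simp only [Pi.add_apply, Pi.smul_apply, smul_eq_mul, mul_one]
        by_cases hx : x ∈ ball (y N) (ρ N / 2)
        · have hxb : x ∈ ball (y N) (ρ N) := ball_subset_ball (by linarith [hρ N]) hx
          have hWx : c0 + W x = c N + u N * (t N x * Z (k N) x) := by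
            rw [hWN N x hxb]
            simp only [hw]
            rw [(η N).one_of_mem_closedBall (ball_subset_closedBall hx)]
            ring
          simp only [hH]
          rw [hWx]
          by_cases hx2 : x ∈ ball (y N) (ρ N / 4)
          · rw [(χ N).one_of_mem_closedBall (ball_subset_closedBall hx2), Complex.ofReal_one]
            ring
          · rw [ht3 N x hx2]
            simp only [zero_mul, mul_zero, add_zero]
            ring
        · have h3 : χ N x = 0 := by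
            rw [← Function.notMem_support, (χ N).support_eq]
            exact hx
          rw [h3, Complex.ofReal_zero, ht3 N x fun h => hx (ball_subset_ball
            (by linarith [hρ N]) h)]
          simp
      rw [h2, Fh_add μ (hχb hHb) ((hχb h1b).smul _), Fh_smul] at h1
      have h5 := Fh_mul_Lp μ h3 h4 hHb hD1'
      have h5' := Fh_mul_Lp μ h3 h4 h1b hD1'
      rw [ENNReal.ofReal_toReal hDt] at h5 h5'
      have h6 : T N ≤ ENNReal.ofReal (a N) * X2 := by
        refine h1.trans ((eLpNorm_add_le (Fh_sm μ (hχb hHb)).aestronglyMeasurable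
          ((Fh_sm μ (hχb h1b)).const_smul _).aestronglyMeasurable (hFs1 _ hl2)).trans ?_)
        rw [eLpNorm_const_smul, hX2d, mul_add]
        refine add_le_add h5 ?_
        have h7 : ‖-f (c N)‖ₑ ≤ ENNReal.ofReal B1 := by
          rw [← ofReal_norm, norm_neg]
          exact ENNReal.ofReal_le_ofReal (hfc N)
        calc _ ≤ ENNReal.ofReal B1 * (ENNReal.ofReal (a N) * X1) := mul_le_mul' h7 h5'
          _ = _ := by ring
      simp only [hT] at h6
      have h7 : (ENNReal.ofReal (a N) + 1) * (N : ℝ≥0∞) ≤ (ENNReal.ofReal (a N) + 1) * X2 :=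
        h6.trans (mul_le_mul_left le_self_add _)
      have h8 : (N : ℝ≥0∞) ≤ X2 := by
        refine (ENNReal.mul_le_mul_iff_right ?_ ?_).1 h7
        · simp
        · simp
      exact (by exact_mod_cast hmN : (m : ℝ≥0∞) ≤ (N : ℝ≥0∞)).trans h8
    obtain ⟨m, hm⟩ := ENNReal.exists_nat_gt hX2.ne
    exact absurd (key m) (not_le.2 hm)

end Pool.Agent.H97.NF
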