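import Pool.Agent.H97.L.T3997aac3.Q193.RD.Good
import Pool.Agent.H97.L.Tf0cf7b00.H438R2.BR.Fam
set_option autoImplicit false
set_option linter.unusedSectionVars false

/-! Multiplication of densities by smooth functions, on the Fourier side. -/

namespace Pool.Agent.H97.NF

open MeasureTheory Set Metric Filter Topology
open scoped ENNReal NNReal RealInnerProductSpace ContDiff FourierTransform ComplexConjugate
open Pool.Agent.Q97.RS (ch Fh ch_norm ch_add ch_conj ch_swap ch_sub_right ch_cont ch_cont' ch_cont'')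
open Pool.Agent.Q193.RD

variable {V : Type*} [NormedAddCommGroup V] [InnerProductSpace ℝ V] [FiniteDimensional ℝ V]
  [MeasurableSpace V] [BorelSpace V]

/-- total mass of the Fourier transform -/
noncomputable def fn (φ : V → ℂ) : ℝ := ∫ η, ‖𝓕 φ η‖

lemma fn_nn (φ : V → ℂ) : 0 ≤ fn φ := integral_nonneg fun _ => norm_nonneg _

lemma ft_int {φ : V → ℂ} (hs : HasCompactSupport φ) (hc : ContDiff ℝ ∞ φ) :
    Integrable (𝓕 φ) := by
  have h := (𝓕 (hs.toSchwartzMap hc)).integrable (μ := (volume : Measure V))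
  rw [SchwartzMap.fourier_coe] at h
  exact h

lemma ft_cont {φ : V → ℂ} (hs : HasCompactSupport φ) (hc : ContDiff ℝ ∞ φ) :
    Continuous (𝓕 φ) := by
  have h := (𝓕 (hs.toSchwartzMap hc)).continuous
  rw [SchwartzMap.fourier_coe] at h
  exact h

lemma inv_ft {φ : V → ℂ} (hs : HasCompactSupport φ) (hc : ContDiff ℝ ∞ φ) (x : V) :
    φ x = ∫ η, 𝓕 φ η * conj (ch x η) := by
  have h1 : 𝓕⁻ (𝓕 φ) = φ := hc.continuous.fourierInv_fourier_eq
    (hc.continuous.integrable_of_hasCompactSupport hs) (ft_int hs hc)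
  conv_lhs => rw [← h1]
  rw [Real.fourierInv_eq']
  refine integral_congr_ae (Eventually.of_forall fun η => ?_)
  simp only [smul_eq_mul]
  rw [mul_comm, ch_conj]
  congr 1
  unfold ch
  congr 1
  rw [inner_neg_right, real_inner_comm]
  push_cast
  ring

lemma Fh_mul (μ : Measure V) [IsFiniteMeasure μ] {φ : V → ℂ} (hs : HasCompactSupport φ)
    (hc : ContDiff ℝ ∞ φ) {h : V → ℂ} (hh : Bd h) (ξ : V) :
    Fh μ (fun x => φ x * h x) ξ = ∫ η, 𝓕 φ η * Fh μ h (ξ - η) := by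
  obtain ⟨M, hM⟩ := hh.2
  have h1 : ∀ x, ch x ξ * (φ x * h x) = ∫ η, 𝓕 φ η * (ch x (ξ - η) * h x) := by
    intro x
    conv_lhs => rw [inv_ft hs hc x]
    rw [← integral_mul_const, ← integral_const_mul]
    refine integral_congr_ae (Eventually.of_forall fun η => ?_)
    simp only
    rw [ch_sub_right]
    ring
  unfold Fh
  rw [integral_congr_ae (Eventually.of_forall h1)]
  rw [integral_integral_swap]
  · refine integral_congr_ae (Eventually.of_forall fun η => ?_)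
    simp only
    rw [integral_const_mul]
  · have h2 : Integrable (fun z : V × V => ‖𝓕 φ z.2‖ * M) (μ.prod volume) := by
      have := (integrable_const (1 : ℝ) (μ := μ)).mul_prod ((ft_int hs hc).norm.mul_const M)
      simpa using this
    refine h2.mono ?_ (Eventually.of_forall fun z => ?_)
    · have h3 : Measurable fun z : V × V => 𝓕 φ z.2 := (ft_cont hs hc).measurable.comp measurable_snd
      have h4 : Measurable fun z : V × V => ch z.1 (ξ - z.2) := by
        have : Continuous fun z : V × V => ch z.1 (ξ - z.2) :=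
          ch_cont.comp (continuous_fst.prodMk (continuous_const.sub continuous_snd))
        exact this.measurable
      exact (h3.mul (h4.mul (hh.1.comp measurable_fst))).aestronglyMeasurable
    · simp only [Function.uncurry]
      rw [norm_mul, norm_mul, ch_norm, one_mul, norm_mul, norm_norm]
      refine mul_le_mul_of_nonneg_left ?_ (norm_nonneg _)
      exact (hM _).trans (le_abs_self M)

lemma Fh_mul_sup (μ : Measure V) [IsFiniteMeasure μ] {φ : V → ℂ} (hs : HasCompactSupport φ)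
    (hc : ContDiff ℝ ∞ φ) {h : V → ℂ} (hh : Bd h) {ε : ℝ} (hε : ∀ ξ, ‖Fh μ h ξ‖ ≤ ε) (ξ : V) :
    ‖Fh μ (fun x => φ x * h x) ξ‖ ≤ fn φ * ε := by
  rw [Fh_mul μ hs hc hh]
  refine (norm_integral_le_integral_norm _).trans ?_
  unfold fn
  rw [← integral_mul_const]
  refine integral_mono_of_nonneg (Eventually.of_forall fun _ => norm_nonneg _)
    ((ft_int hs hc).norm.mul_const ε) (Eventually.of_forall fun η => ?_)
  simp only
  rw [norm_mul]
  exact mul_le_mul_of_nonneg_left (hε _) (norm_nonneg _)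

/-- Minkowski -/
lemma Fh_mul_Lp (μ : Measure V) [IsFiniteMeasure μ] {φ : V → ℂ} (hs : HasCompactSupport φ)
    (hc : ContDiff ℝ ∞ φ) {h : V → ℂ} (hh : Bd h) {p : ℝ} (hp : 1 ≤ p) :
    eLpNorm (Fh μ (fun x => φ x * h x)) (ENNReal.ofReal p) volume ≤
      ENNReal.ofReal (fn φ) * eLpNorm (Fh μ h) (ENNReal.ofReal p) volume := by
  have hp0 : 0 < p := by linarith
  have hFc : Continuous (Fh μ h) := Fh_cont μ hh
  have hFm : Measurable (fun z : V × V => ‖Fh μ h (z.1 - z.2)‖ₑ ^ p) :=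
    ((hFc.measurable.comp (measurable_fst.sub measurable_snd)).enorm).pow_const _
  have hφm : Measurable (fun z : V × V => ‖𝓕 φ z.2‖ₑ) :=
    ((ft_cont hs hc).measurable.comp measurable_snd).enorm
  have hA : ∫⁻ η, ‖𝓕 φ η‖ₑ = ENNReal.ofReal (fn φ) := by
    unfold fn
    rw [ofReal_integral_norm_eq_lintegral_enorm (ft_int hs hc)]
  -- pointwise
  have h1 : ∀ ξ, ‖Fh μ (fun x => φ x * h x) ξ‖ₑ ^ p ≤
      ENNReal.ofReal (fn φ) ^ (p - 1) * ∫⁻ η, ‖𝓕 φ η‖ₑ * ‖Fh μ h (ξ - η)‖ₑ ^ p := by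
    intro ξ
    have h2 : ‖Fh μ (fun x => φ x * h x) ξ‖ₑ ≤ ∫⁻ η, ‖𝓕 φ η‖ₑ * ‖Fh μ h (ξ - η)‖ₑ := by
      rw [Fh_mul μ hs hc hh]
      refine (enorm_integral_le_lintegral_enorm _).trans (le_of_eq ?_)
      refine lintegral_congr fun η => ?_
      rw [enorm_mul]
    set ν : Measure V := volume.withDensity (fun η => ‖𝓕 φ η‖ₑ) with hν
    have hm : Measurable (fun η => ‖𝓕 φ η‖ₑ) := (ft_cont hs hc).measurable.enorm
    have hg : Measurable (fun η => ‖Fh μ h (ξ - η)‖ₑ) :=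
      (hFc.measurable.comp (measurable_const.sub measurable_id)).enorm
    have h3 : ∫⁻ η, ‖𝓕 φ η‖ₑ * ‖Fh μ h (ξ - η)‖ₑ = ∫⁻ η, ‖Fh μ h (ξ - η)‖ₑ ∂ν := by
      rw [hν, lintegral_withDensity_eq_lintegral_mul _ hm hg]
      rfl
    have h4 : ∫⁻ η, ‖𝓕 φ η‖ₑ * ‖Fh μ h (ξ - η)‖ₑ ^ p = ∫⁻ η, ‖Fh μ h (ξ - η)‖ₑ ^ p ∂ν := by
      rw [hν, lintegral_withDensity_eq_lintegral_mul _ hm (hg.pow_const p)]
      rfl
    have h5 : ν univ = ENNReal.ofReal (fn φ) := by
      rw [hν, withDensity_apply _ MeasurableSet.univ, Measure.restrict_univ, hA]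
    rcases hp.eq_or_lt with h6 | h6
    · rw [← h6]
      simp only [ENNReal.rpow_one, sub_self, ENNReal.rpow_zero, one_mul]
      exact h2
    · refine (ENNReal.rpow_le_rpow h2 hp0.le).trans ?_
      rw [h3, h4, ← h5]
      exact Pool.Agent.H438R2.BR.Fam.jensenp ν _ hg.aemeasurable p h6
  have hq0 : ENNReal.ofReal p ≠ 0 := by simpa using hp0
  rw [eLpNorm_eq_lintegral_rpow_enorm_toReal hq0 ENNReal.ofReal_ne_top,
    eLpNorm_eq_lintegral_rpow_enorm_toReal hq0 ENNReal.ofReal_ne_top,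
    ENNReal.toReal_ofReal hp0.le]
  have h7 : ∫⁻ ξ, ‖Fh μ (fun x => φ x * h x) ξ‖ₑ ^ p ≤
      ENNReal.ofReal (fn φ) ^ p * ∫⁻ ξ, ‖Fh μ h ξ‖ₑ ^ p := by
    calc ∫⁻ ξ, ‖Fh μ (fun x => φ x * h x) ξ‖ₑ ^ p
        ≤ ∫⁻ ξ, ENNReal.ofReal (fn φ) ^ (p - 1) *
          ∫⁻ η, ‖𝓕 φ η‖ₑ * ‖Fh μ h (ξ - η)‖ₑ ^ p := lintegral_mono h1
      _ = ENNReal.ofReal (fn φ) ^ (p - 1) *
          ∫⁻ ξ, ∫⁻ η, ‖𝓕 φ η‖ₑ * ‖Fh μ h (ξ - η)‖ₑ ^ p := by
          rw [lintegral_const_mul' _ _ (by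
            exact ENNReal.rpow_ne_top_of_nonneg (by linarith) ENNReal.ofReal_ne_top)]
      _ = ENNReal.ofReal (fn φ) ^ (p - 1) *
          ∫⁻ η, ∫⁻ ξ, ‖𝓕 φ η‖ₑ * ‖Fh μ h (ξ - η)‖ₑ ^ p := by
          rw [lintegral_lintegral_swap]
          exact (hφm.mul hFm).aemeasurable
      _ = ENNReal.ofReal (fn φ) ^ (p - 1) *
          ∫⁻ η, ‖𝓕 φ η‖ₑ * ∫⁻ ξ, ‖Fh μ h ξ‖ₑ ^ p := by
          congr 1
          refine lintegral_congr fun η => ?_
          rw [lintegral_const_mul' _ _ enorm_ne_top]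
          congr 1
          exact lintegral_sub_right_eq_self (fun ξ => ‖Fh μ h ξ‖ₑ ^ p) η
      _ = ENNReal.ofReal (fn φ) ^ (p - 1) * (ENNReal.ofReal (fn φ) *
          ∫⁻ ξ, ‖Fh μ h ξ‖ₑ ^ p) := by
          rw [lintegral_mul_const _ (ft_cont hs hc).measurable.enorm, hA]
      _ = _ := by
          rw [← mul_assoc]
          congr 1
          rcases eq_or_ne (ENNReal.ofReal (fn φ)) 0 with h0 | h0
          · rw [h0, mul_zero, ENNReal.zero_rpow_of_pos hp0]
          · have : ENNReal.ofReal (fn φ) ^ p =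
                ENNReal.ofReal (fn φ) ^ (p - 1) * ENNReal.ofReal (fn φ) ^ (1 : ℝ) := by
              rw [← ENNReal.rpow_add _ _ h0 ENNReal.ofReal_ne_top]
              congr 1
              ring
            rw [this, ENNReal.rpow_one]
  refine (ENNReal.rpow_le_rpow h7 (by positivity)).trans (le_of_eq ?_)
  rw [ENNReal.mul_rpow_of_nonneg _ _ (by positivity), ← ENNReal.rpow_mul,
    mul_one_div_cancel hp0.ne', ENNReal.rpow_one]

/-- multiplication by a fixed integrable function preserves uniform smallness -/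
lemma weak_sup (μ : Measure V) [IsFiniteMeasure μ] {f : V → ℂ} (hf : Integrable f μ)
    {Z : ℕ → V → ℂ} (hZm : ∀ k, Measurable (Z k)) (hZ1 : ∀ k x, ‖Z k x‖ ≤ 1)
    (he : ∀ δ : ℝ, 0 < δ → ∃ K : ℕ, ∀ k, K ≤ k → ∀ ξ, ‖Fh μ (Z k) ξ‖ ≤ δ) {δ : ℝ} (hδ : 0 < δ) :
    ∃ K : ℕ, ∀ k, K ≤ k → ∀ ξ, ‖Fh μ (fun x => f x * Z k x) ξ‖ ≤ δ := by
  obtain ⟨φ, hs, hc, hφ⟩ := (memLp_one_iff_integrable.2 hf).exist_eLpNorm_sub_le
    ENNReal.one_ne_top le_rfl (half_pos hδ)
  have hfn := fn_nn φ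
  obtain ⟨K, hK⟩ := he (δ / (2 * (fn φ + 1))) (by positivity)
  have hφi : Integrable φ μ := hc.continuous.integrable_of_hasCompactSupport hs
  have hd : ∫ x, ‖f x - φ x‖ ∂μ ≤ δ / 2 := by
    rw [eLpNorm_one_eq_lintegral_enorm, ← ofReal_integral_norm_eq_lintegral_enorm
      (hf.sub hφi)] at hφ
    exact (ENNReal.ofReal_le_ofReal_iff (by positivity)).1 hφ
  refine ⟨K, fun k hk ξ => ?_⟩
  have hZb : Bd (Z k) := ⟨hZm k, 1, hZ1 k⟩
  have hia : ∀ {g : V → ℂ}, Integrable g μ → Integrable (fun x => ch x ξ * (g x * Z k x)) μ := by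
    intro g hg
    refine hg.mono (((ch_cont' ξ).measurable.aestronglyMeasurable).mul
      (hg.1.mul (hZm k).aestronglyMeasurable)) (Eventually.of_forall fun x => ?_)
    rw [norm_mul, ch_norm, one_mul, norm_mul]
    exact mul_le_of_le_one_right (norm_nonneg _) (hZ1 k x)
  have h2 : Fh μ (fun x => f x * Z k x) ξ = Fh μ (fun x => φ x * Z k x) ξ +
      Fh μ (fun x => (f x - φ x) * Z k x) ξ := by
    unfold Fh
    rw [← integral_add (hia hφi) (hia (g := fun x => f x - φ x) (hf.sub hφi))]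
    refine integral_congr_ae (Eventually.of_forall fun x => ?_)
    simp only
    ring
  have h3 : ‖Fh μ (fun x => (f x - φ x) * Z k x) ξ‖ ≤ δ / 2 := by
    refine (norm_integral_le_integral_norm _).trans (le_trans ?_ hd)
    refine integral_mono_of_nonneg (Eventually.of_forall fun _ => norm_nonneg _)
      (hf.sub hφi).norm (Eventually.of_forall fun x => ?_)
    simp only
    rw [norm_mul, ch_norm, one_mul, norm_mul]
    exact mul_le_of_le_one_right (norm_nonneg _) (hZ1 k x)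
  rw [h2]
  refine (norm_add_le _ _).trans ?_
  have h4 := Fh_mul_sup μ hs hc hZb (hK k hk) ξ
  have h5 : fn φ * (δ / (2 * (fn φ + 1))) ≤ δ / 2 := by
    calc fn φ * (δ / (2 * (fn φ + 1))) ≤ (fn φ + 1) * (δ / (2 * (fn φ + 1))) :=
          mul_le_mul_of_nonneg_right (by linarith) (by positivity)
      _ = δ / 2 := by field_simp
  linarith

end Pool.Agent.H97.NF
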