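import Pool.Agent.H97.L.T3997aac3.Q193.RD.Good
set_option autoImplicit false
set_option linter.unusedSectionVars false

/-! Rudin-Shapiro functions on the unit interval. -/

namespace Pool.Agent.H97.NF

open MeasureTheory Set Metric Filter Topology
open scoped ENNReal NNReal RealInnerProductSpace ContDiff FourierTransform ComplexConjugate
open Pool.Agent.Q97.RS (ch Fh ch_norm ch_add ch_conj ch_swap ch_sub_right ch_cont ch_cont' ch_cont'')
open Pool.Agent.Q193.RD

/-- the Rudin-Shapiro functions -/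
noncomputable def rsp : ℕ → (ℝ → ℝ) × (ℝ → ℝ)
  | 0 => (fun _ => 1, fun _ => 1)
  | k + 1 => (fun h => if h < 1 / 2 then (rsp k).1 (2 * h) else (rsp k).2 (2 * h - 1),
      fun h => if h < 1 / 2 then (rsp k).1 (2 * h) else -(rsp k).2 (2 * h - 1))

lemma rsp_meas (k : ℕ) : Measurable (rsp k).1 ∧ Measurable (rsp k).2 := by
  induction k with
  | zero => exact ⟨measurable_const, measurable_const⟩
  | succ k ih =>
    obtain ⟨h1, h2⟩ := ih
    have m1 : Measurable fun h : ℝ => (rsp k).1 (2 * h) := h1.comp (measurable_const_mul 2)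
    have m2 : Measurable fun h : ℝ => (rsp k).2 (2 * h - 1) :=
      h2.comp ((measurable_const_mul 2).sub_const 1)
    have hs : MeasurableSet {h : ℝ | h < 1 / 2} := measurableSet_Iio
    exact ⟨Measurable.ite hs m1 m2, Measurable.ite hs m1 m2.neg⟩

lemma rsp_val (k : ℕ) : (∀ h, (rsp k).1 h = 1 ∨ (rsp k).1 h = -1) ∧
    ∀ h, (rsp k).2 h = 1 ∨ (rsp k).2 h = -1 := by
  induction k with
  | zero => exact ⟨fun h => Or.inl rfl, fun h => Or.inl rfl⟩
  | succ k ih =>
    obtain ⟨h1, h2⟩ := ih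
    refine ⟨fun h => ?_, fun h => ?_⟩
    · simp only [rsp]
      split_ifs
      · exact h1 _
      · exact h2 _
    · simp only [rsp]
      split_ifs
      · exact h1 _
      · rcases h2 (2 * h - 1) with h3 | h3
        · right; rw [h3]
        · left; rw [h3, neg_neg]

/-- Fourier transform on the unit interval -/
noncomputable def FI (f : ℝ → ℝ) (s : ℝ) : ℂ :=
  ∫ h in (0 : ℝ)..1, Complex.exp (((-(2 * Real.pi * h * s) : ℝ) : ℂ) * Complex.I) * (f h : ℂ)

lemma exp_n (x : ℝ) : ‖Complex.exp ((x : ℂ) * Complex.I)‖ = 1 := Complex.norm_exp_ofReal_mul_I x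

lemma FI_ii {f : ℝ → ℝ} (hf : Measurable f) (hv : ∀ h, f h = 1 ∨ f h = -1) (s a b : ℝ) :
    IntervalIntegrable (fun h => Complex.exp (((-(2 * Real.pi * h * s) : ℝ) : ℂ) * Complex.I) *
      (f h : ℂ)) volume a b := by
  rw [intervalIntegrable_iff]
  have : IsFiniteMeasure (volume.restrict (uIoc a b)) := ⟨by
    rw [Measure.restrict_apply_univ, uIoc, Real.volume_Ioc]
    exact ENNReal.ofReal_lt_top⟩
  refine Integrable.of_bound (C := 1) ?_ (Eventually.of_forall fun h => ?_)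
  · have h1 : Continuous fun h : ℝ =>
        Complex.exp (((-(2 * Real.pi * h * s) : ℝ) : ℂ) * Complex.I) := by fun_prop
    exact (h1.measurable.mul (Complex.measurable_ofReal.comp hf)).aestronglyMeasurable
  · rw [norm_mul, exp_n, one_mul]
    rcases hv h with h1 | h1 <;> rw [h1] <;> simp

lemma FI_split {p q : ℝ → ℝ} (hp : Measurable p) (hq : Measurable q)
    (hpv : ∀ h, p h = 1 ∨ p h = -1) (hqv : ∀ h, q h = 1 ∨ q h = -1) (s : ℝ) :
    FI (fun h => if h < 1 / 2 then p (2 * h) else q (2 * h - 1)) s =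
      (1 / 2 : ℂ) * (FI p (s / 2) +
        Complex.exp (((-(Real.pi * s) : ℝ) : ℂ) * Complex.I) * FI q (s / 2)) := by
  set F : ℝ → ℂ := fun h => Complex.exp (((-(2 * Real.pi * h * s) : ℝ) : ℂ) * Complex.I) *
    (((if h < 1 / 2 then p (2 * h) else q (2 * h - 1) : ℝ)) : ℂ) with hF
  have hFi : ∀ a b, IntervalIntegrable F volume a b := by
    intro a b
    have hs : MeasurableSet {h : ℝ | h < 1 / 2} := measurableSet_Iio
    have m1 : Measurable fun h : ℝ => p (2 * h) := hp.comp (measurable_const_mul 2)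
    have m2 : Measurable fun h : ℝ => q (2 * h - 1) :=
      hq.comp ((measurable_const_mul 2).sub_const 1)
    refine FI_ii (f := fun h => if h < 1 / 2 then p (2 * h) else q (2 * h - 1))
      (Measurable.ite hs m1 m2) (fun h => ?_) s a b
    split_ifs
    · exact hpv _
    · exact hqv _
  have h0 : FI (fun h => if h < 1 / 2 then p (2 * h) else q (2 * h - 1)) s =
      (∫ h in (0 : ℝ)..(1 / 2), F h) + ∫ h in (1 / 2 : ℝ)..1, F h := by
    rw [intervalIntegral.integral_add_adjacent_intervals (hFi _ _) (hFi _ _)]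
    rfl
  set G1 : ℝ → ℂ := fun u => Complex.exp (((-(2 * Real.pi * u * (s / 2)) : ℝ) : ℂ) * Complex.I) *
    (p u : ℂ) with hG1
  set G2 : ℝ → ℂ := fun u => Complex.exp (((-(2 * Real.pi * u * (s / 2)) : ℝ) : ℂ) * Complex.I) *
    (q u : ℂ) with hG2
  have h1 : ∫ h in (0 : ℝ)..(1 / 2), F h = (1 / 2 : ℂ) * FI p (s / 2) := by
    have e1 : ∫ h in (0 : ℝ)..(1 / 2), F h = ∫ h in (0 : ℝ)..(1 / 2), G1 (2 * h) := by
      refine intervalIntegral.integral_congr_ae ?_
      have h3 : ∀ᵐ h : ℝ ∂volume, h ≠ 1 / 2 := by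
        rw [ae_iff]
        simp
      filter_upwards [h3] with h hne hh
      rw [uIoc_of_le (by norm_num)] at hh
      have h4 : h < 1 / 2 := lt_of_le_of_ne hh.2 hne
      simp only [hF, hG1]
      rw [if_pos h4]
      congr 4
      ring
    rw [e1, intervalIntegral.integral_comp_mul_left (fun u => G1 u) (two_ne_zero)]
    have e2 : (2 : ℝ) * 0 = 0 := by norm_num
    have e3 : (2 : ℝ) * (1 / 2) = 1 := by norm_num
    have e4 : FI p (s / 2) = ∫ x in (0 : ℝ)..1, G1 x := rfl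
    rw [e2, e3, e4, Complex.real_smul]
    norm_num
  have h2 : ∫ h in (1 / 2 : ℝ)..1, F h = (1 / 2 : ℂ) *
      (Complex.exp (((-(Real.pi * s) : ℝ) : ℂ) * Complex.I) * FI q (s / 2)) := by
    have e1 : ∫ h in (1 / 2 : ℝ)..1, F h = ∫ h in (1 / 2 : ℝ)..1,
        Complex.exp (((-(Real.pi * s) : ℝ) : ℂ) * Complex.I) * G2 (2 * h - 1) := by
      refine intervalIntegral.integral_congr_ae (Eventually.of_forall fun h hh => ?_)
      rw [uIoc_of_le (by norm_num)] at hh
      have h4 : ¬ h < 1 / 2 := not_lt.2 hh.1.le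
      simp only [hF, hG2]
      rw [if_neg h4, ← mul_assoc, ← Complex.exp_add]
      congr 2
      push_cast
      ring
    rw [e1, intervalIntegral.integral_const_mul,
      intervalIntegral.integral_comp_mul_sub (fun u => G2 u) (two_ne_zero)]
    have e2 : (2 : ℝ) * (1 / 2) - 1 = 0 := by norm_num
    have e3 : (2 : ℝ) * 1 - 1 = 1 := by norm_num
    have e4 : FI q (s / 2) = ∫ x in (0 : ℝ)..1, G2 x := rfl
    rw [e2, e3, e4, Complex.real_smul]
    push_cast
    ring
  rw [h0, h1, h2]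
  ring

lemma FI_neg (f : ℝ → ℝ) (s : ℝ) : FI (fun h => -f h) s = -FI f s := by
  unfold FI
  rw [← intervalIntegral.integral_neg]
  refine intervalIntegral.integral_congr fun h _ => ?_
  simp only
  push_cast
  ring

lemma rs_bound (k : ℕ) (s : ℝ) : ‖FI (rsp k).1 s‖ ^ 2 + ‖FI (rsp k).2 s‖ ^ 2 ≤ 2 * (1 / 2) ^ k := by
  induction k generalizing s with
  | zero =>
    have h1 : ‖FI (fun _ => (1 : ℝ)) s‖ ≤ 1 := by
      unfold FI
      refine (intervalIntegral.norm_integral_le_of_norm_le_const (C := 1) fun h _ => ?_).trans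
        (by norm_num)
      rw [norm_mul, exp_n, one_mul]
      simp
    have h2 : 0 ≤ ‖FI (fun _ => (1 : ℝ)) s‖ := norm_nonneg _
    change ‖FI (fun _ => (1 : ℝ)) s‖ ^ 2 + ‖FI (fun _ => (1 : ℝ)) s‖ ^ 2 ≤ _
    nlinarith
  | succ k ih =>
    obtain ⟨m1, m2⟩ := rsp_meas k
    obtain ⟨v1, v2⟩ := rsp_val k
    have v3 : ∀ h, -(rsp k).2 h = 1 ∨ -(rsp k).2 h = -1 := by
      intro h
      rcases v2 h with h3 | h3
      · right; rw [h3]
      · left; rw [h3, neg_neg]
    have h1 := FI_split m1 m2 v1 v2 s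
    have h2 := FI_split (q := fun h => -(rsp k).2 h) m1 m2.neg v1 v3 s
    rw [FI_neg] at h2
    have e1 : (rsp (k + 1)).1 = fun h => if h < 1 / 2 then (rsp k).1 (2 * h) else
      (rsp k).2 (2 * h - 1) := rfl
    have e2 : (rsp (k + 1)).2 = fun h => if h < 1 / 2 then (rsp k).1 (2 * h) else
      -(rsp k).2 (2 * h - 1) := rfl
    rw [e1, e2, h1, h2]
    set a := FI (rsp k).1 (s / 2)
    set b := Complex.exp (((-(Real.pi * s) : ℝ) : ℂ) * Complex.I) * FI (rsp k).2 (s / 2) with hb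
    have hbn : ‖b‖ = ‖FI (rsp k).2 (s / 2)‖ := by rw [hb, norm_mul, exp_n, one_mul]
    have e3 : a + Complex.exp (((-(Real.pi * s) : ℝ) : ℂ) * Complex.I) * -FI (rsp k).2 (s / 2) =
      a - b := by rw [hb]; ring
    rw [e3, norm_mul, norm_mul]
    have e4 : ‖(1 / 2 : ℂ)‖ = 1 / 2 := by norm_num
    rw [e4]
    have h3 := parallelogram_law_with_norm ℝ a b
    have h4 : ‖a‖ ^ 2 + ‖FI (rsp k).2 (s / 2)‖ ^ 2 ≤ 2 * (1 / 2) ^ k := ih (s / 2)
    rw [← hbn] at h4
    have e5 : (1 / 2 : ℝ) ^ (k + 1) = (1 / 2) ^ k * (1 / 2) := pow_succ _ _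
    have e6 : (1 / 2 * ‖a + b‖) ^ 2 + (1 / 2 * ‖a - b‖) ^ 2 =
      1 / 4 * (‖a + b‖ ^ 2 + ‖a - b‖ ^ 2) := by ring
    rw [e5, e6, h3]
    linarith

/-- functions with values `±1` and uniformly small Fourier transform -/
theorem exists_rs : ∃ (γ : ℕ → ℝ → ℝ) (e : ℕ → ℝ), (∀ k, Measurable (γ k)) ∧
    (∀ k h, γ k h = 1 ∨ γ k h = -1) ∧ Tendsto e atTop (𝓝 0) ∧
    ∀ k (ξ : ℝ), ‖Fh (volume.restrict (Ioo (0 : ℝ) 1)) (fun h => (γ k h : ℂ)) ξ‖ ≤ e k := by
  refine ⟨fun k => (rsp k).1, fun k => Real.sqrt (2 * (1 / 2) ^ k), fun k => (rsp_meas k).1,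
    fun k => (rsp_val k).1, ?_, fun k ξ => ?_⟩
  · have h1 : Tendsto (fun k : ℕ => 2 * (1 / 2 : ℝ) ^ k) atTop (𝓝 0) := by
      have := (tendsto_pow_atTop_nhds_zero_of_lt_one (r := (1 / 2 : ℝ)) (by norm_num)
        (by norm_num)).const_mul 2
      simpa using this
    have h2 := (Real.continuous_sqrt.tendsto 0).comp h1
    rw [Real.sqrt_zero] at h2
    exact h2
  · have h1 : Fh (volume.restrict (Ioo (0 : ℝ) 1)) (fun h => ((rsp k).1 h : ℂ)) ξ =
        FI (rsp k).1 ξ := by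
      unfold Fh FI
      rw [intervalIntegral.integral_of_le zero_le_one, integral_Ioc_eq_integral_Ioo]
      refine setIntegral_congr_fun measurableSet_Ioo fun h _ => ?_
      simp only
      congr 1
      unfold ch
      congr 1
      have : (⟪h, ξ⟫ : ℝ) = h * ξ := by
        simp [mul_comm]
      rw [this]
      push_cast
      ring
    rw [h1]
    refine Real.le_sqrt_of_sq_le ?_
    have h2 := rs_bound k ξ
    have h3 : 0 ≤ ‖FI (rsp k).2 ξ‖ ^ 2 := by positivity
    linarith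

end Pool.Agent.H97.NF
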