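import Pool.Agent.H97.NF.Loc
import Pool.Agent.H97.NF.Rud
import Pool.Agent.H97.L.Tf0cf7b00.H438R2.ZD.All
import Pool.Agent.H97.L.T3997aac3.Q193.RD.Ext
set_option autoImplicit false
set_option linter.unusedSectionVars false

/-! Oscillating zonal signs with small Fourier transforms, in the full range. -/

namespace Pool.Agent.H97.NF

open MeasureTheory Set Metric Filter Topology
open scoped ENNReal NNReal RealInnerProductSpace ContDiff FourierTransform ComplexConjugate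
open Pool.Agent.Q97.RS (ch Fh ch_norm ch_add ch_conj ch_swap ch_sub_right ch_cont ch_cont' ch_cont'')
open Pool.Agent.Q193.RD
open Pool.Agent.H789R2.FR (E sg sg_ae sg_inv sg_finite)
open Pool.Agent.H438R2.BR (Phi Q J Phi_le Phi_meas arcsin_int weight_le Fam.U Fam.Good)
open Pool.Agent.H438R2.ZD (Fz TZ Phi_decay U_eq exists_frame1 zreduction good_coord)

lemma Phi_lip (k : ℕ) (hk : 2 ≤ k) (u v : ℝ) : ‖Phi k u - Phi k v‖ ≤ Real.pi * |u - v| := by
  have hint : ∀ u : ℝ, IntegrableOn (fun s : ℝ => Complex.exp (((u * s : ℝ) : ℂ) * Complex.I) *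
    (((1 - s ^ 2) ^ (((k : ℝ) - 3) / 2) : ℝ) : ℂ)) (Ioo (-1 : ℝ) 1) := by
    intro u
    refine arcsin_int.1.mono' ?_ ?_
    · have h1 : Measurable fun s : ℝ => Complex.exp (((u * s : ℝ) : ℂ) * Complex.I) := by fun_prop
      have h2 : Measurable fun s : ℝ => (1 - s ^ 2) ^ (((k : ℝ) - 3) / 2) :=
        Measurable.pow_const (by fun_prop) _
      exact (h1.mul (Complex.measurable_ofReal.comp h2)).aestronglyMeasurable
    · filter_upwards [ae_restrict_mem measurableSet_Ioo] with s hs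
      have h1 : 0 < 1 - s ^ 2 := by nlinarith [hs.1, hs.2]
      rw [norm_mul, Complex.norm_exp_ofReal_mul_I, one_mul, Complex.norm_real, Real.norm_eq_abs,
        abs_of_nonneg (Real.rpow_nonneg h1.le _)]
      exact weight_le k hk s hs
  unfold Phi
  rw [← integral_sub (hint u) (hint v)]
  refine (norm_integral_le_integral_norm _).trans ?_
  rw [← arcsin_int.2, ← integral_mul_const]
  refine integral_mono_of_nonneg (Eventually.of_forall fun _ => norm_nonneg _)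
    (arcsin_int.1.mul_const _) ?_
  filter_upwards [ae_restrict_mem measurableSet_Ioo] with s hs
  have h1 : 0 < 1 - s ^ 2 := by nlinarith [hs.1, hs.2]
  rw [← sub_mul, norm_mul, Complex.norm_real, Real.norm_eq_abs,
    abs_of_nonneg (Real.rpow_nonneg h1.le _), mul_comm]
  have h2 : ‖Complex.exp (((u * s : ℝ) : ℂ) * Complex.I) -
      Complex.exp (((v * s : ℝ) : ℂ) * Complex.I)‖ ≤ |u - v| := by
    have e1 : Complex.exp (((u * s : ℝ) : ℂ) * Complex.I) -
        Complex.exp (((v * s : ℝ) : ℂ) * Complex.I) = Complex.exp (((v * s : ℝ) : ℂ) * Complex.I) *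
        (Complex.exp (Complex.I * (((u - v) * s : ℝ) : ℂ)) - 1) := by
      rw [mul_sub, ← Complex.exp_add, mul_one]
      congr 2
      push_cast
      ring
    rw [e1, norm_mul, Complex.norm_exp_ofReal_mul_I, one_mul]
    refine (Real.norm_exp_I_mul_ofReal_sub_one_le).trans ?_
    rw [Real.norm_eq_abs, abs_mul]
    refine mul_le_of_le_one_right (abs_nonneg _) ?_
    rw [abs_le]
    exact ⟨hs.1.le, hs.2.le⟩
  exact mul_le_mul (weight_le k hk s hs) h2 (norm_nonneg _) (Real.rpow_nonneg h1.le _)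

lemma Q_meas : MeasurableSet Q := by unfold Q; exact measurableSet_Ioo

lemma Q_vol : (volume : Measure ℝ).real Q ≤ Real.pi := by
  unfold Q
  rw [Real.volume_real_Ioo, sub_zero, max_eq_left (by linarith [Real.pi_pos])]
  linarith [Real.pi_pos]

lemma exp_neg_norm (x : ℝ) : ‖Complex.exp (-((x : ℝ) : ℂ) * Complex.I)‖ = 1 := by
  rw [Complex.norm_exp]
  simp

/-- decay in the distance to the axis -/
lemma Fz_decay (k : ℕ) (hk : 2 ≤ k) : ∃ C : ℝ, 0 < C ∧ ∀ G : ℝ → ℂ, (∀ θ, ‖G θ‖ ≤ 1) →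
    ∀ r t : ℝ, 0 < r → ‖Fz k G r t‖ ≤ C * r ^ (-(((k : ℝ) - 1) / 2)) := by
  obtain ⟨C, hC, h⟩ := Phi_decay k hk
  refine ⟨C * Real.pi, by positivity, fun G hG r t hr => ?_⟩
  have hk' : (2 : ℝ) ≤ k := by exact_mod_cast hk
  unfold Fz
  have h1 : ∀ θ ∈ Q, ‖G θ * (((Real.cos θ) ^ (k - 1) : ℝ) : ℂ) *
      (Phi k (r * Real.cos θ) * Complex.exp (-((t * Real.sin θ : ℝ) : ℂ) * Complex.I))‖ ≤
      C * r ^ (-(((k : ℝ) - 1) / 2)) := by
    intro θ hθ
    have hc : 0 < Real.cos θ := by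
      unfold Q at hθ
      exact Real.cos_pos_of_mem_Ioo ⟨by linarith [hθ.1, Real.pi_pos], hθ.2⟩
    have hc1 : Real.cos θ ≤ 1 := Real.cos_le_one θ
    rw [norm_mul, norm_mul, norm_mul, exp_neg_norm, mul_one, Complex.norm_real, Real.norm_eq_abs,
      abs_of_nonneg (by positivity)]
    have h2 := h (r * Real.cos θ) (by positivity)
    have h3 : (Real.cos θ) ^ (k - 1) * (r * Real.cos θ) ^ (-(((k : ℝ) - 1) / 2)) ≤
        r ^ (-(((k : ℝ) - 1) / 2)) := by
      rw [Real.mul_rpow hr.le hc.le]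
      have h4 : (Real.cos θ) ^ (k - 1) * (Real.cos θ) ^ (-(((k : ℝ) - 1) / 2)) ≤ 1 := by
        rw [← Real.rpow_natCast, ← Real.rpow_add hc]
        refine Real.rpow_le_one hc.le hc1 ?_
        rw [Nat.cast_sub (by omega)]
        push_cast
        linarith
      have h5 : 0 < r ^ (-(((k : ℝ) - 1) / 2)) := Real.rpow_pos_of_pos hr _
      nlinarith
    calc ‖G θ‖ * Real.cos θ ^ (k - 1) * ‖Phi k (r * Real.cos θ)‖
        ≤ 1 * Real.cos θ ^ (k - 1) * (C * (r * Real.cos θ) ^ (-(((k : ℝ) - 1) / 2))) := by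
          refine mul_le_mul (mul_le_mul_of_nonneg_right (hG θ) (by positivity))
            (h2.trans (mul_le_mul_of_nonneg_left (min_le_right _ _) hC.le)) (norm_nonneg _)
            (by positivity)
      _ = C * (Real.cos θ ^ (k - 1) * (r * Real.cos θ) ^ (-(((k : ℝ) - 1) / 2))) := by ring
      _ ≤ _ := mul_le_mul_of_nonneg_left h3 hC.le
  refine (norm_setIntegral_le_of_norm_le_const (μ := volume) (s := Q)
    (by unfold Q; simp) h1).trans ?_
  have h5 : 0 < r ^ (-(((k : ℝ) - 1) / 2)) := Real.rpow_pos_of_pos hr _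
  have h6 := Q_vol
  calc C * r ^ (-(((k : ℝ) - 1) / 2)) * (volume : Measure ℝ).real Q
      ≤ C * r ^ (-(((k : ℝ) - 1) / 2)) * Real.pi :=
        mul_le_mul_of_nonneg_left h6 (by positivity)
    _ = _ := by ring

/-- Lipschitz dependence on the distance to the axis -/
lemma Fz_lip (k : ℕ) (hk : 2 ≤ k) (G : ℝ → ℂ) (hGm : Measurable G) (hG : ∀ θ, ‖G θ‖ ≤ 1)
    (r r' t : ℝ) : ‖Fz k G r t - Fz k G r' t‖ ≤ Real.pi ^ 2 * |r - r'| := by
  unfold Fz
  rw [← integral_sub (Pool.Agent.H438R2.ZD.Z6.Fz_int k hk G hGm 1 hG r t)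
    (Pool.Agent.H438R2.ZD.Z6.Fz_int k hk G hGm 1 hG r' t)]
  have h1 : ∀ θ ∈ Q, ‖G θ * (((Real.cos θ) ^ (k - 1) : ℝ) : ℂ) *
      (Phi k (r * Real.cos θ) * Complex.exp (-((t * Real.sin θ : ℝ) : ℂ) * Complex.I)) -
      G θ * (((Real.cos θ) ^ (k - 1) : ℝ) : ℂ) *
      (Phi k (r' * Real.cos θ) * Complex.exp (-((t * Real.sin θ : ℝ) : ℂ) * Complex.I))‖ ≤
      Real.pi * |r - r'| := by
    intro θ hθ
    have e1 : G θ * (((Real.cos θ) ^ (k - 1) : ℝ) : ℂ) *
      (Phi k (r * Real.cos θ) * Complex.exp (-((t * Real.sin θ : ℝ) : ℂ) * Complex.I)) -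
      G θ * (((Real.cos θ) ^ (k - 1) : ℝ) : ℂ) *
      (Phi k (r' * Real.cos θ) * Complex.exp (-((t * Real.sin θ : ℝ) : ℂ) * Complex.I)) =
      G θ * (((Real.cos θ) ^ (k - 1) : ℝ) : ℂ) * ((Phi k (r * Real.cos θ) -
        Phi k (r' * Real.cos θ)) * Complex.exp (-((t * Real.sin θ : ℝ) : ℂ) * Complex.I)) := by
      ring
    rw [e1, norm_mul, norm_mul, norm_mul, exp_neg_norm, mul_one, Complex.norm_real,
      Real.norm_eq_abs, abs_pow]
    have a1 : |Real.cos θ| ^ (k - 1) ≤ 1 := pow_le_one₀ (abs_nonneg _) (Real.abs_cos_le_one θ)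
    have a2 : ‖Phi k (r * Real.cos θ) - Phi k (r' * Real.cos θ)‖ ≤ Real.pi * |r - r'| := by
      refine (Phi_lip k hk _ _).trans ?_
      rw [← sub_mul, abs_mul]
      have := Real.abs_cos_le_one θ
      have h3 : |r - r'| * |Real.cos θ| ≤ |r - r'| := mul_le_of_le_one_right (abs_nonneg _) this
      exact mul_le_mul_of_nonneg_left h3 Real.pi_pos.le
    calc ‖G θ‖ * |Real.cos θ| ^ (k - 1) * ‖Phi k (r * Real.cos θ) - Phi k (r' * Real.cos θ)‖
        ≤ 1 * 1 * (Real.pi * |r - r'|) := by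
          refine mul_le_mul (mul_le_mul (hG θ) a1 (by positivity) zero_le_one) a2
            (norm_nonneg _) (by norm_num)
      _ = _ := by ring
  refine (norm_setIntegral_le_of_norm_le_const (μ := volume) (s := Q)
    (by unfold Q; simp) h1).trans ?_
  have h6 := Q_vol
  have h7 := Real.pi_pos
  calc Real.pi * |r - r'| * (volume : Measure ℝ).real Q ≤ Real.pi * |r - r'| * Real.pi :=
        mul_le_mul_of_nonneg_left h6 (by positivity)
    _ = _ := by ring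

/-- the weight -/
noncomputable def Wr (k : ℕ) (r s : ℝ) : ℂ :=
  (((Real.cos (Real.arcsin s)) ^ (k - 2) : ℝ) : ℂ) * Phi k (r * Real.cos (Real.arcsin s))

lemma Wr_meas (k : ℕ) (r : ℝ) : Measurable (Wr k r) := by
  unfold Wr
  have hc : Measurable fun s : ℝ => Real.cos (Real.arcsin s) :=
    Real.measurable_cos.comp Real.continuous_arcsin.measurable
  exact (Complex.measurable_ofReal.comp (hc.pow_const _)).mul
    ((Phi_meas k).comp (measurable_const.mul hc))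

lemma Wr_le (k : ℕ) (hk : 2 ≤ k) (r s : ℝ) : ‖Wr k r s‖ ≤ Real.pi := by
  unfold Wr
  rw [norm_mul, Complex.norm_real, norm_pow]
  have h1 : ‖Real.cos (Real.arcsin s)‖ ^ (k - 2) ≤ 1 :=
    pow_le_one₀ (norm_nonneg _) (Real.abs_cos_le_one _)
  have h2 := Phi_le k hk (r * Real.cos (Real.arcsin s))
  calc _ ≤ 1 * Real.pi := mul_le_mul h1 h2 (norm_nonneg _) zero_le_one
    _ = _ := one_mul _

lemma Fz_eq (k : ℕ) (hk : 2 ≤ k) (γ : ℝ → ℝ) (r t : ℝ) :
    Fz k (fun θ => (γ (Real.sin θ) : ℂ)) r t =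
      Fh (volume.restrict (Ioo (0 : ℝ) 1)) (fun s => Wr k r s * (γ s : ℂ)) (t / (2 * Real.pi)) := by
  have h1 := Pool.Agent.H438R2.ZD.Z1.ft k hk (fun θ => (γ (Real.sin θ) : ℂ)) r
    (t / (2 * Real.pi))
  have h2 : 2 * Real.pi * (t / (2 * Real.pi)) = t := by
    have := Real.pi_pos
    field_simp
  rw [h2] at h1
  rw [← h1, Real.fourier_real_eq_integral_exp_smul]
  unfold Fh Pool.Agent.H438R2.ZD.Z1.g
  rw [← integral_indicator measurableSet_Ioo]
  refine integral_congr_ae (Eventually.of_forall fun s => ?_)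
  simp only
  by_cases hs : s ∈ Ioo (0 : ℝ) 1
  · rw [indicator_of_mem hs, indicator_of_mem hs, smul_eq_mul]
    have h3 : Real.sin (Real.arcsin s) = s := Real.sin_arcsin (by linarith [hs.1]) hs.2.le
    have h4 : Complex.exp (((-2 * Real.pi * s * (t / (2 * Real.pi)) : ℝ) : ℂ) * Complex.I) =
        ch s (t / (2 * Real.pi)) := by
      unfold ch
      congr 1
      have : (⟪s, t / (2 * Real.pi)⟫ : ℝ) = s * (t / (2 * Real.pi)) := by
        simp [mul_comm]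
      rw [this]
      push_cast
      ring
    rw [h4, h3]
    unfold Wr
    ring
  · rw [indicator_of_notMem hs, indicator_of_notMem hs, smul_zero]

/-- uniform smallness of the profiles -/
lemma Fz_small (k : ℕ) (hk : 2 ≤ k) {γ : ℕ → ℝ → ℝ} {e : ℕ → ℝ} (hγm : ∀ j, Measurable (γ j))
    (hγ : ∀ j h, γ j h = 1 ∨ γ j h = -1) (he0 : Tendsto e atTop (𝓝 0))
    (he : ∀ j (ξ : ℝ), ‖Fh (volume.restrict (Ioo (0 : ℝ) 1)) (fun h => (γ j h : ℂ)) ξ‖ ≤ e j)
    {δ : ℝ} (hδ : 0 < δ) : ∃ K : ℕ, ∀ j, K ≤ j → ∀ r t : ℝ, 0 ≤ r →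
      ‖Fz k (fun θ => (γ j (Real.sin θ) : ℂ)) r t‖ ≤ δ := by
  have hfin : IsFiniteMeasure (volume.restrict (Ioo (0 : ℝ) 1)) := ⟨by
    rw [Measure.restrict_apply_univ, Real.volume_Ioo]
    exact ENNReal.ofReal_lt_top⟩
  have hg1 : ∀ j h, ‖((γ j h : ℝ) : ℂ)‖ ≤ 1 := by
    intro j h
    rcases hγ j h with h1 | h1 <;> rw [h1] <;> simp
  have hpi := Real.pi_pos
  obtain ⟨C, hC, hdec⟩ := Fz_decay k hk
  have hk' : (2 : ℝ) ≤ k := by exact_mod_cast hk
  obtain ⟨r0, hr0, hr1⟩ : ∃ r0 : ℝ, 0 < r0 ∧ ∀ r, r0 ≤ r → C * r ^ (-(((k : ℝ) - 1) / 2)) ≤ δ := by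
    have h1 : Tendsto (fun r : ℝ => C * r ^ (-(((k : ℝ) - 1) / 2))) atTop (𝓝 0) := by
      have := (tendsto_rpow_neg_atTop (y := ((k : ℝ) - 1) / 2) (by linarith)).const_mul C
      simpa using this
    obtain ⟨r0, hr0⟩ := eventually_atTop.1 ((h1.eventually (gt_mem_nhds hδ)).and
      (eventually_gt_atTop 0))
    exact ⟨max r0 1, by positivity, fun r hr => (hr0 r ((le_max_left _ _).trans hr)).1.le⟩
  set η : ℝ := δ / (2 * Real.pi ^ 2) with hη
  have hη0 : 0 < η := by positivity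
  -- finitely many radii
  have hKi : ∀ i : ℕ, ∃ K : ℕ, ∀ j, K ≤ j → ∀ ξ : ℝ,
      ‖Fh (volume.restrict (Ioo (0 : ℝ) 1)) (fun s => Wr k (i * η) s * (γ j s : ℂ)) ξ‖ ≤ δ / 2 := by
    intro i
    refine weak_sup _ ?_ (Z := fun j s => ((γ j s : ℝ) : ℂ))
      (fun j => Complex.measurable_ofReal.comp (hγm j)) hg1 (fun d hd => ?_) (half_pos hδ)
    rotate_left
    · obtain ⟨K, hK⟩ := eventually_atTop.1 (he0.eventually (gt_mem_nhds hd))
      exact ⟨K, fun k hk ξ => (he k ξ).trans (hK k hk).le⟩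
    exact Integrable.of_bound (Wr_meas k _).aestronglyMeasurable Real.pi
      (Eventually.of_forall fun s => Wr_le k hk _ s)
  choose K hK using hKi
  set N : ℕ := ⌊r0 / η⌋₊ with hN
  refine ⟨∑ i ∈ Finset.range (N + 1), K i, fun j hj r t hr => ?_⟩
  rcases le_or_gt r0 r with h1 | h1
  · exact (hdec _ (fun θ => hg1 j _) r t (hr0.trans_le h1)).trans (hr1 r h1)
  · set i : ℕ := ⌊r / η⌋₊ with hi
    have hiN : i ≤ N := Nat.floor_le_floor (div_le_div_of_nonneg_right h1.le hη0.le)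
    have hKj : K i ≤ j := (Finset.single_le_sum (f := K) (fun _ _ => Nat.zero_le _)
      (Finset.mem_range.2 (by omega))).trans hj
    have h2 := hK i j hKj (t / (2 * Real.pi))
    rw [← Fz_eq k hk] at h2
    have h3 := Fz_lip k hk (fun θ => (γ j (Real.sin θ) : ℂ))
      (Complex.measurable_ofReal.comp ((hγm j).comp Real.measurable_sin)) (fun θ => hg1 j _)
      r (i * η) t
    have h4 : |r - i * η| ≤ η := by
      have h5 : (i : ℝ) ≤ r / η := Nat.floor_le (by positivity)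
      have h6 : r / η < i + 1 := Nat.lt_floor_add_one _
      rw [le_div_iff₀ hη0] at h5
      rw [div_lt_iff₀ hη0] at h6
      rw [abs_le]
      constructor <;> linarith
    have h7 : Real.pi ^ 2 * |r - i * η| ≤ δ / 2 := by
      calc Real.pi ^ 2 * |r - i * η| ≤ Real.pi ^ 2 * η := by gcongr
        _ = δ / 2 := by rw [hη]; field_simp
    calc ‖Fz k (fun θ => (γ j (Real.sin θ) : ℂ)) r t‖ =
        ‖Fz k (fun θ => (γ j (Real.sin θ) : ℂ)) (i * η) t +
          (Fz k (fun θ => (γ j (Real.sin θ) : ℂ)) r t -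
          Fz k (fun θ => (γ j (Real.sin θ) : ℂ)) (i * η) t)‖ := by congr 1; ring
      _ ≤ δ := by
          refine (norm_add_le _ _).trans ?_
          linarith

/-- splitting of the coordinates -/
lemma J_surj (k : ℕ) (z : E (k + 1)) : ∃ (x : E k) (y : E 1), J x y = z := by
  refine ⟨WithLp.toLp 2 (fun i => z (Fin.castAdd 1 i)), WithLp.toLp 2 (fun i => z (Fin.natAdd k i)),
    ?_⟩
  ext i
  unfold J
  refine Fin.addCases (fun i => ?_) (fun i => ?_) i
  · simp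
  · simp

/-- zonal densities with uniformly small transforms have small norms in the full range -/
lemma zonal_Lp {n : ℕ} (hn : 3 ≤ n) {u : E n} (hu : ‖u‖ = 1) {γ : ℕ → ℝ → ℂ} {M : ℝ}
    (hγm : ∀ j, Measurable (γ j)) (hγM : ∀ j s, ‖γ j s‖ ≤ M)
    (hsmall : ∀ δ : ℝ, 0 < δ → ∃ K : ℕ, ∀ j, K ≤ j → ∀ ξ,
      ‖Fh (sg n) (fun x => γ j ⟪u, x⟫) ξ‖ ≤ δ) {p : ℝ} (hp : 2 * (n : ℝ) / (n - 1) < p) :
    Tendsto (fun j => eLpNorm (Fh (sg n) (fun x => γ j ⟪u, x⟫)) (ENNReal.ofReal p) volume)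
      atTop (𝓝 0) ∧
    ∀ j, eLpNorm (Fh (sg n) (fun x => γ j ⟪u, x⟫)) (ENNReal.ofReal p) volume < ⊤ := by
  have hn' : (3 : ℝ) ≤ n := by exact_mod_cast hn
  have hFU : ∀ j ξ, Fh (sg n) (fun x => γ j ⟪u, x⟫) ξ =
      Fam.U (fun w => ⟪u, w⟫) (γ j) ξ := fun j ξ => rfl
  have hM0 : 0 ≤ M := (norm_nonneg _).trans (hγM 0 0)
  set p0 : ℝ := 2 * (n : ℝ) / (n - 1) with hp0
  have hp00 : 0 < p0 := by
    rw [hp0]
    have h2 : 0 < (n : ℝ) - 1 := by linarith
    positivity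
  have hfin : ∀ p, p0 < p → ∃ C : ℝ, 0 < C ∧ ∀ j,
      ∫⁻ ξ, ‖Fh (sg n) (fun x => γ j ⟪u, x⟫) ξ‖ₑ ^ p ≤ ENNReal.ofReal (C * M ^ p) := by
    intro p hp
    obtain ⟨C, hC, hgood⟩ := good_coord n hn p hp
    refine ⟨C, hC, fun j => ?_⟩
    have hpp : 0 < p := hp00.trans hp
    have h1 := hgood u hu (γ j) M (hγm j) (hγM j)
    refine le_trans (le_of_eq ?_) h1
    refine lintegral_congr fun ξ => ?_
    rw [hFU, ← ofReal_norm, ENNReal.ofReal_rpow_of_nonneg (norm_nonneg _) hpp.le]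
  have hpp : 0 < p := hp00.trans hp
  have hp0' : ENNReal.ofReal p ≠ 0 := by simpa using hpp
  refine ⟨?_, fun j => ?_⟩
  rotate_left
  · rw [eLpNorm_lt_top_iff_lintegral_rpow_enorm_lt_top hp0' ENNReal.ofReal_ne_top,
      ENNReal.toReal_ofReal hpp.le]
    obtain ⟨C, hC, h⟩ := hfin p hp
    exact (h j).trans_lt ENNReal.ofReal_lt_top
  set q : ℝ := (p0 + p) / 2 with hq
  have hq1 : p0 < q := by rw [hq]; linarith
  have hq2 : q < p := by rw [hq]; linarith
  have hq0 : 0 < q := hp00.trans hq1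
  obtain ⟨C', hC', hF⟩ := hfin q hq1
  set C : ℝ := C' * M ^ q with hCd
  rw [ENNReal.tendsto_atTop_zero]
  intro ε hε
  -- choose δ
  obtain ⟨δ, hδ, hδε⟩ : ∃ δ : ℝ, 0 < δ ∧
      (ENNReal.ofReal (δ ^ (p - q) * C)) ^ (1 / p) ≤ ε := by
    have h1 : Tendsto (fun δ : ℝ => (ENNReal.ofReal (δ ^ (p - q) * C)) ^ (1 / p)) (𝓝[>] 0)
        (𝓝 0) := by
      have h2 : Tendsto (fun δ : ℝ => δ ^ (p - q) * C) (𝓝[>] 0) (𝓝 0) := by
        have h3 : Tendsto (fun δ : ℝ => δ ^ (p - q)) (𝓝 0) (𝓝 (0 ^ (p - q))) :=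
          (Real.continuousAt_rpow_const 0 (p - q) (Or.inr (by linarith))).tendsto
        rw [Real.zero_rpow (by linarith)] at h3
        have h4 := (h3.mono_left (nhdsWithin_le_nhds (s := Ioi (0 : ℝ)))).mul_const C
        simpa using h4
      have h5 := ENNReal.tendsto_ofReal h2
      rw [ENNReal.ofReal_zero] at h5
      have h6 := h5.ennrpow_const (1 / p)
      rw [ENNReal.zero_rpow_of_pos (by positivity)] at h6
      exact h6
    obtain ⟨δ, hδ1, hδ2⟩ := ((h1.eventually (gt_mem_nhds hε)).and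
      (self_mem_nhdsWithin)).exists
    exact ⟨δ, hδ2, hδ1.le⟩
  obtain ⟨K, hK⟩ := hsmall δ hδ
  refine ⟨K, fun j hj => le_trans ?_ hδε⟩
  rw [eLpNorm_eq_lintegral_rpow_enorm_toReal hp0' ENNReal.ofReal_ne_top,
    ENNReal.toReal_ofReal hpp.le]
  refine ENNReal.rpow_le_rpow ?_ (by positivity)
  calc ∫⁻ ξ, ‖Fh (sg n) (fun x => γ j ⟪u, x⟫) ξ‖ₑ ^ p
      ≤ ∫⁻ ξ, ENNReal.ofReal (δ ^ (p - q)) *
        ‖Fh (sg n) (fun x => γ j ⟪u, x⟫) ξ‖ₑ ^ q := by
        refine lintegral_mono fun ξ => ?_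
        have h1 := hK j hj ξ
        simp only
        rw [← ofReal_norm, ENNReal.ofReal_rpow_of_nonneg (norm_nonneg _) hpp.le,
          ENNReal.ofReal_rpow_of_nonneg (norm_nonneg _) hq0.le, ← ENNReal.ofReal_mul (by positivity)]
        refine ENNReal.ofReal_le_ofReal ?_
        have h2 : ‖Fh (sg n) (fun x => γ j ⟪u, x⟫) ξ‖ ^ p =
            ‖Fh (sg n) (fun x => γ j ⟪u, x⟫) ξ‖ ^ (p - q) *
            ‖Fh (sg n) (fun x => γ j ⟪u, x⟫) ξ‖ ^ q := by
          rw [← Real.rpow_add_of_nonneg (norm_nonneg _) (by linarith) hq0.le, sub_add_cancel]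
        rw [h2]
        refine mul_le_mul_of_nonneg_right ?_ (by positivity)
        exact Real.rpow_le_rpow (norm_nonneg _) h1 (by linarith)
    _ = ENNReal.ofReal (δ ^ (p - q)) *
        ∫⁻ ξ, ‖Fh (sg n) (fun x => γ j ⟪u, x⟫) ξ‖ₑ ^ q :=
        lintegral_const_mul' _ _ ENNReal.ofReal_ne_top
    _ ≤ ENNReal.ofReal (δ ^ (p - q)) * ENNReal.ofReal C := mul_le_mul_right (hF j) _
    _ = _ := by rw [← ENNReal.ofReal_mul (by positivity)]

/-- **The oscillating signs** `Y` and their smooth approximations `Z`. -/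
theorem osc (n : ℕ) (hn : 3 ≤ n) : ∃ (Y Z : ℕ → E n → ℝ), (∀ j, Measurable (Y j)) ∧
    (∀ j x, Y j x = 1 ∨ Y j x = -1) ∧
    (∀ δ : ℝ, 0 < δ → ∃ K : ℕ, ∀ j, K ≤ j → ∀ ξ, ‖Fh (sg n) (fun x => (Y j x : ℂ)) ξ‖ ≤ δ) ∧
    (∀ j, ContDiff ℝ ∞ (Z j)) ∧ (∀ j x, |Z j x| ≤ 3) ∧
    (∀ δ : ℝ, 0 < δ → ∃ K : ℕ, ∀ j, K ≤ j → ∫ x, |Y j x - Z j x| ∂(sg n) ≤ δ) ∧
    ∀ p : ℝ, 2 * (n : ℝ) / (n - 1) < p →
      Tendsto (fun j => eLpNorm (Fh (sg n) (fun x => (Z j x : ℂ))) (ENNReal.ofReal p) volume)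
        atTop (𝓝 0) ∧
      ∀ j, eLpNorm (Fh (sg n) (fun x => (Z j x : ℂ))) (ENNReal.ofReal p) volume < ⊤ := by
  obtain ⟨k, rfl⟩ : ∃ k, n = k + 1 := ⟨n - 1, by omega⟩
  have hk : 2 ≤ k := by omega
  have := sg_finite (k + 1)
  obtain ⟨γ, e, hγm, hγ, he0, he⟩ := exists_rs
  obtain ⟨u, hu⟩ : ∃ u : E (k + 1), ‖u‖ = 1 := by
    have : Nonempty (Fin (k + 1)) := ⟨0⟩
    obtain ⟨p, hp⟩ := (NormedSpace.sphere_nonempty (x := (0 : E (k + 1))) (r := 1)).2 zero_le_one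
    exact ⟨p, by simpa using hp⟩
  obtain ⟨Λ, hΛ⟩ := exists_frame1 k u hu
  set Y : ℕ → E (k + 1) → ℝ := fun j x => γ j |⟪u, x⟫| with hY
  have hFU : ∀ j ξ, Fh (sg (k + 1)) (fun x => (Y j x : ℂ)) ξ =
      Fam.U (fun w => ⟪u, w⟫) (fun s => (γ j |s| : ℂ)) ξ := fun j ξ => rfl
  have hγa : ∀ j, Measurable fun s : ℝ => ((γ j |s| : ℝ) : ℂ) := fun j =>
    Complex.measurable_ofReal.comp ((hγm j).comp continuous_abs.measurable)
  have hg1 : ∀ j h, ‖((γ j h : ℝ) : ℂ)‖ ≤ 1 := by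
    intro j h
    rcases hγ j h with h1 | h1 <;> rw [h1] <;> simp
  set c : ℝ := (sg (k - 1)).real univ with hc
  have hc0 : 0 ≤ c := measureReal_nonneg
  have hsmall : ∀ δ : ℝ, 0 < δ → ∃ K : ℕ, ∀ j, K ≤ j → ∀ ξ,
      ‖Fh (sg (k + 1)) (fun x => (Y j x : ℂ)) ξ‖ ≤ δ := by
    intro δ hδ
    obtain ⟨K, hK⟩ := Fz_small k hk hγm hγ he0 he (δ := δ / (2 * (c + 1))) (by positivity)
    refine ⟨K, fun j hj ξ => ?_⟩
    rw [hFU, U_eq k u Λ hΛ]
    obtain ⟨x, y, hxy⟩ := J_surj k ((2 * Real.pi) • Λ ξ)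
    rw [← hxy]
    unfold TZ
    rw [zreduction k hk _ (hγa j) 1 (fun s => hg1 j _)]
    have e1 : ∀ r t : ℝ, Fz k (fun θ => ((γ j |Real.sin θ| : ℝ) : ℂ)) r t =
        Fz k (fun θ => (γ j (Real.sin θ) : ℂ)) r t := by
      intro r t
      unfold Fz
      refine setIntegral_congr_fun Q_meas fun θ hθ => ?_
      have h2 : 0 ≤ Real.sin θ := by
        unfold Q at hθ
        exact Real.sin_nonneg_of_nonneg_of_le_pi hθ.1.le (by linarith [hθ.2, Real.pi_pos])
      simp only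
      rw [abs_of_nonneg h2]
    have e2 : ∀ r t : ℝ, Fz k (fun θ => ((γ j |-Real.sin θ| : ℝ) : ℂ)) r t =
        Fz k (fun θ => (γ j (Real.sin θ) : ℂ)) r t := by
      intro r t
      simp only [abs_neg]
      exact e1 r t
    rw [e1, e2, norm_mul, Complex.norm_real, Real.norm_eq_abs, abs_of_nonneg hc0]
    have h3 := hK j hj ‖x‖ (y 0) (norm_nonneg _)
    have h4 := hK j hj ‖x‖ (-(y 0)) (norm_nonneg _)
    calc c * _ ≤ c * (δ / (2 * (c + 1)) + δ / (2 * (c + 1))) := by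
          refine mul_le_mul_of_nonneg_left ((norm_add_le _ _).trans ?_) hc0
          linarith
      _ ≤ (c + 1) * (δ / (2 * (c + 1)) + δ / (2 * (c + 1))) := by
          refine mul_le_mul_of_nonneg_right (by linarith) (by positivity)
      _ = δ := by field_simp; ring
  -- the smooth approximations
  have huc : Continuous fun x : E (k + 1) => (⟪u, x⟫ : ℝ) := by fun_prop
  set ν : Measure ℝ := (sg (k + 1)).map (fun x => (⟪u, x⟫ : ℝ)) with hν
  have hνf : IsFiniteMeasure ν := by rw [hν]; infer_instance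
  set A : ℕ → Set ℝ := fun j => {s | s ∈ ball (0 : ℝ) 2 ∧ γ j |s| = 1} with hA
  have hAm : ∀ j, MeasurableSet (A j) := fun j =>
    measurableSet_ball.inter (measurableSet_eq_fun ((hγm j).comp continuous_abs.measurable)
      measurable_const)
  have hap : ∀ j : ℕ, ∃ φ : ℝ → ℝ, ContDiff ℝ ∞ φ ∧ (∀ x, 0 ≤ φ x ∧ φ x ≤ 2) ∧
      (∀ x, x ∉ ball (0 : ℝ) 4 → φ x = 0) ∧
      ∫ x, |(A j).indicator (fun _ => (1 : ℝ)) x - φ x| ∂ν ≤ (1 / 2) ^ j := by
    intro j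
    refine smooth_approx ν 0 (by norm_num) (measurable_const.indicator (hAm j)) (fun x => ?_)
      (fun x hx => ?_) (by positivity)
    · by_cases hx : x ∈ A j
      · rw [indicator_of_mem hx]; norm_num
      · rw [indicator_of_notMem hx]; norm_num
    · refine indicator_of_notMem (fun h => hx ?_) _
      have e1 : (4 : ℝ) / 2 = 2 := by norm_num
      rw [e1]
      exact h.1
  choose φ hφ1 hφ2 hφ3 hφ4 using hap
  set Z : ℕ → E (k + 1) → ℝ := fun j x => 2 * φ j ⟪u, x⟫ - 1 with hZ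
  have hYZ : ∀ j, ∫ x, |Y j x - Z j x| ∂(sg (k + 1)) ≤ 2 * (1 / 2) ^ j := by
    intro j
    have h1 : ∫ x, |Y j x - Z j x| ∂(sg (k + 1)) =
        ∫ x, 2 * |(A j).indicator (fun _ => (1 : ℝ)) ⟪u, x⟫ - φ j ⟪u, x⟫| ∂(sg (k + 1)) := by
      refine integral_congr_ae ?_
      filter_upwards [sg_ae (k + 1)] with x hx
      have h2 : (⟪u, x⟫ : ℝ) ∈ ball (0 : ℝ) 2 := by
        rw [mem_ball, dist_zero_right, Real.norm_eq_abs]
        have := abs_real_inner_le_norm u x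
        rw [hu, hx] at this
        linarith
      simp only [hY, hZ]
      have h3 : γ j |⟪u, x⟫| = 2 * (A j).indicator (fun _ => (1 : ℝ)) ⟪u, x⟫ - 1 := by
        rcases hγ j |⟪u, x⟫| with h | h
        · rw [indicator_of_mem (show (⟪u, x⟫ : ℝ) ∈ A j from ⟨h2, h⟩), h]
          norm_num
        · rw [indicator_of_notMem (fun h4 : (⟪u, x⟫ : ℝ) ∈ A j => by
            have h5 := h4.2
            rw [h] at h5
            norm_num at h5), h]
          norm_num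
      rw [h3]
      have e1 : 2 * (A j).indicator (fun _ => (1 : ℝ)) ⟪u, x⟫ - 1 - (2 * φ j ⟪u, x⟫ - 1) =
        2 * ((A j).indicator (fun _ => (1 : ℝ)) ⟪u, x⟫ - φ j ⟪u, x⟫) := by ring
      rw [e1, abs_mul, abs_two]
    rw [h1, integral_const_mul]
    refine mul_le_mul_of_nonneg_left ?_ zero_le_two
    have h2 := hφ4 j
    rw [hν, integral_map huc.measurable.aemeasurable] at h2
    · exact h2
    · exact (((measurable_const.indicator (hAm j)).sub
        (hφ1 j).continuous.measurable).abs).aestronglyMeasurable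
  have hlim : ∀ δ : ℝ, 0 < δ → ∃ K : ℕ, ∀ j, K ≤ j → (2 : ℝ) * (1 / 2) ^ j ≤ δ := by
    intro δ hδ
    have h1 : Tendsto (fun k : ℕ => 2 * (1 / 2 : ℝ) ^ k) atTop (𝓝 0) := by
      have := (tendsto_pow_atTop_nhds_zero_of_lt_one (r := (1 / 2 : ℝ)) (by norm_num)
        (by norm_num)).const_mul 2
      simpa using this
    obtain ⟨K, hK⟩ := eventually_atTop.1 (h1.eventually (gt_mem_nhds hδ))
    exact ⟨K, fun j hj => (hK j hj).le⟩
  have hZ3 : ∀ j x, |Z j x| ≤ 3 := by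
    intro j x
    obtain ⟨h1, h2⟩ := hφ2 j ⟪u, x⟫
    simp only [hZ]
    rw [abs_le]
    constructor <;> linarith
  have hZc : ∀ j, ContDiff ℝ ∞ (Z j) := fun j => by
    simp only [hZ]
    exact (contDiff_const.mul ((hφ1 j).comp (contDiff_const.inner ℝ contDiff_id))).sub
      contDiff_const
  have hYb : ∀ j, Bd (fun x => ((Y j x : ℝ) : ℂ)) := fun j =>
    ⟨(hγa j).comp huc.measurable, 1, fun x => hg1 j _⟩
  have hZb : ∀ j, Bd (fun x => ((Z j x : ℝ) : ℂ)) := fun j =>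
    ⟨Complex.measurable_ofReal.comp (hZc j).continuous.measurable, 3, fun x => by
      rw [Complex.norm_real, Real.norm_eq_abs]; exact hZ3 j x⟩
  refine ⟨Y, Z, fun j => (hγm j).comp (by fun_prop), fun j x => hγ j _, hsmall, hZc, hZ3,
    fun δ hδ => ?_, fun p hp => ?_⟩
  · obtain ⟨K, hK⟩ := hlim δ hδ
    exact ⟨K, fun j hj => (hYZ j).trans (hK j hj)⟩
  · refine zonal_Lp (M := 3) hn hu (γ := fun j s => ((2 * φ j s - 1 : ℝ) : ℂ)) (fun j => ?_)
      (fun j s => ?_) (fun δ hδ => ?_) hp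
    · exact Complex.measurable_ofReal.comp (((hφ1 j).continuous.measurable.const_mul 2).sub_const 1)
    · rw [Complex.norm_real, Real.norm_eq_abs]
      obtain ⟨h1, h2⟩ := hφ2 j s
      rw [abs_le]
      constructor <;> linarith
    · obtain ⟨K1, hK1⟩ := hsmall (δ / 2) (half_pos hδ)
      obtain ⟨K2, hK2⟩ := hlim (δ / 2) (half_pos hδ)
      refine ⟨max K1 K2, fun j hj ξ => ?_⟩
      have h1 := hK1 j ((le_max_left _ _).trans hj) ξ
      have h2 := hK2 j ((le_max_right _ _).trans hj)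
      have e1 : (fun x => ((2 * φ j ⟪u, x⟫ - 1 : ℝ) : ℂ)) = (fun x => ((Y j x : ℝ) : ℂ)) +
          (-1 : ℂ) • ((fun x => ((Y j x : ℝ) : ℂ)) - fun x => ((Z j x : ℝ) : ℂ)) := by
        funext x
        simp only [hZ, Pi.add_apply, Pi.smul_apply, Pi.sub_apply, smul_eq_mul]
        ring
      have h3 : ‖Fh (sg (k + 1)) ((fun x => ((Y j x : ℝ) : ℂ)) - fun x => ((Z j x : ℝ) : ℂ)) ξ‖ ≤
          δ / 2 := by
        refine (Fh_le_int _ _ ξ).trans (le_trans (le_of_eq ?_) ((hYZ j).trans h2))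
        refine integral_congr_ae (Eventually.of_forall fun x => ?_)
        simp only [Pi.sub_apply]
        rw [← Complex.ofReal_sub, Complex.norm_real, Real.norm_eq_abs]
      rw [e1, Fh_add _ (hYb j) (((hYb j).sub (hZb j)).smul _), Fh_smul, Pi.add_apply,
        Pi.smul_apply, neg_one_smul]
      refine (norm_add_le _ _).trans ?_
      rw [norm_neg]
      linarith

end Pool.Agent.H97.NF
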